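import Mathlib
import Pool.Prelude.Def_F_458e953d
import Pool.Agent.Helper22.OracleDefs

set_option autoImplicit false

/-!
# Decidable languages that are hard for NP ∩ coNP: definitions
-/

namespace Pool.Agent.Hrd

open N68a2faeb N793a5b8e N487b59b3 Pool.Agent.Helper22

/-- `H` is computably enumerable: a projection of a polynomial time relation. -/
def CE (H : DecisionProblem) : Prop :=
  ∃ R : List Bool × List Bool → Bool, IsPolyTime R ∧ ∀ x, H x = true ↔ ∃ w, R (x, w) = true

/-- `H` is decidable: `H` and its complement are computably enumerable. -/
def Dec (H : DecisionProblem) : Prop := CE H ∧ CE Hᶜ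

/-- `H` is hard for NP ∩ coNP under polynomial time many-one reductions. -/
def Hard (H : DecisionProblem) : Prop := ∀ L ∈ NP ∩ coNP, ManyOneReducible L H

/-- Polynomial time Turing reducibility. -/
def TuringReducible (A B : DecisionProblem) : Prop :=
  ∃ M : OracleProc (List Bool) Bool, ∀ x, A x = M.run B x

end Pool.Agent.Hrd
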