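import Mathlib
import Pool.Agent.Hrd.Defs
import Pool.Agent.Helper20.Cons.Code
import Pool.Agent.Helper22.Cons.SimJoin

set_option autoImplicit false

/-!
# The polynomial time functions of the construction
-/

namespace Pool.Agent.Hrd

open Turing Function N68a2faeb N793a5b8e N487b59b3 Pool.Agent.Helper22
open Pool.Agent.Helper20.Cons (cAcc cRun cAns cOut cNum)

/-! ## Presentations of languages of NP ∩ coNP -/

/-- the code of the first (`b = true`) or the second verifier in `v` -/
def jb (b : Bool) (v : List Bool) : List Bool := if b then cf v else cf (cs v)

/-- the bound for the input `x` -/
def rb (v x : List Bool) : List Bool := un (x.length ^ (cs (cs v)).length + (cs (cs v)).length)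

/-- the bound for the input `x`, computed with the clock `t` -/
def rt (v x t : List Bool) : List Bool := pw x (cs (cs v)) t ++ un (cs (cs v)).length

/-- acceptance by the first or the second verifier in `v` -/
def Ac (b : Bool) (v x : List Bool) : Prop := ∃ w, chk (jb b v) x w (rb v x) = true

/-- the two verifiers in `v` are complementary -/
def Valid (v : List Bool) : Prop := ∀ x, Ac true v x ↔ ¬ Ac false v x

/-! ## Detection of the codes that are not valid -/

/-- all words of length at most `|r|` are among `strs t` -/
def full (r t : List Bool) : Bool := decide ((pw [true, true] (true :: r) t).length ≤ t.length)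

/-- both verifiers accept `x`, with witnesses among `strs t` -/
def both (v x t : List Bool) : Bool :=
  (strs t).any fun z => chk (jb true v) x (cf z) (rt v x t) && chk (jb false v) x (cs z) (rt v x t)

/-- none of the two verifiers accepts `x`, and `strs t` holds all the candidates for witnesses -/
def none' (v x t : List Bool) : Bool :=
  full (rt v x t) t && !(strs t).any fun w =>
    chk (jb true v) x w (rt v x t) || chk (jb false v) x w (rt v x t)

/-- within the time `|t|` the code `v` is seen not to be valid -/
def bad (v t : List Bool) : Bool :=
  (strs t).any fun x => padok (cs (cs v)) x t && (both v x t || none' v x t)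

/-! ## The choice of the reduction -/

section

variable (k : Bool → List Bool × List Bool → Bool)

/-- `z = cd x w` shows that the function with code `j` does not reduce the language with code `v`
to the language whose approximations are given by `k` -/
def refute (v j t z : List Bool) : Bool :=
  (padok (cs (cs v)) (cf z) t && decide ((pw (cf z) (cs j) t).length ≤ t.length)) &&
    ((chk (jb true v) (cf z) (cs z) (rt v (cf z) t) && k false (fjt j (cf z) t, t)) ||
      (chk (jb false v) (cf z) (cs z) (rt v (cf z) t) && k true (fjt j (cf z) t, t)))

/-- the candidate `j` is not refuted -/
def flag (v t j : List Bool) : Bool := !(strs t).any (refute k v j t)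

/-- the selected candidate -/
def sel (v t : List Bool) : List Bool :=
  (first ((strs t).map fun j => (flag k v t j, j)) (false, [])).2

/-! ## The reduction -/

/-- the code in the instance -/
def iv (z : List Bool) : List Bool := enumU (cf z)

/-- the selected candidate for the instance -/
def ij (z : List Bool) : List Bool := sel k (iv z) z

/-- the instance `z` is active, if the index bound is `c` -/
def act (z c : List Bool) : Bool :=
  (decide ((cf z).length ≤ c.length) && padok (cs (cs (iv z))) (cf (cs z)) (cs (cs z))) &&
    (!bad (iv z) z && decide ((pw (cf (cs z)) (cs (ij k z)) (cs (cs z))).length ≤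
      (cs (cs z)).length))

/-- the reduction, with the index bound `c` -/
def G (ν z c : List Bool) : List Bool :=
  if act k z c then fjt (ij k z) (cf (cs z)) (cs (cs z)) else ν

/-! ## Looking back -/

/-- the approximation of the language: `h` is the list of the index bounds used so far -/
def orc (ν : List Bool) (b : Bool) (h : List (List Bool)) (q : List Bool) : Bool :=
  k b (G k ν q ((h.drop q.length).headD []), un h.length)

/-- acceptance by the verifier with code `j`, and the oracle `orc` -/
def accB (ν j r x : List Bool) (h : List (List Bool)) : Bool :=
  (strs (un h.length)).any fun w =>
    decide (w.length ≤ r.length) && cRun j r (cd x w) (orc k ν true h)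

/-- the approximations on all short words are answered -/
def known (ν r : List Bool) (h : List (List Bool)) : Bool :=
  !(strs (un h.length)).any fun q =>
    decide (q.length ≤ r.length) && !(orc k ν true h q || orc k ν false h q)

/-- the requirement with code `m` is seen to be violated at `x` -/
def viol (ν m x : List Bool) (h : List (List Bool)) : Bool :=
  ((padok (cs (cs m)) x (un h.length) && full (rt m x (un h.length)) (un h.length)) &&
    known k ν (rt m x (un h.length)) h) &&
  ((k true (x, un h.length) && (!accB k ν (cf m) (rt m x (un h.length)) x h ||
      accB k ν (cf (cs m)) (rt m x (un h.length)) x h)) ||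
    (k false (x, un h.length) && (accB k ν (cf m) (rt m x (un h.length)) x h ||
      !accB k ν (cf (cs m)) (rt m x (un h.length)) x h)))

/-- the requirement with index `|c|` is seen to be violated -/
def req (ν : List Bool) (s : List (List Bool) × List Bool) : Bool :=
  (strs (un s.1.length)).any fun x => viol k ν (enumU s.2) x s.1

/-- one step: the list of the index bounds, and the current index bound -/
def step (ν : List Bool) (s : List (List Bool) × List Bool) : List (List Bool) × List Bool :=
  (s.1 ++ [s.2], if req k ν s then true :: s.2 else s.2)

/-- the state at the time `n` -/
def state (ν : List Bool) (n : ℕ) : List (List Bool) × List Bool := (step k ν)^[n] ([], [])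

/-- the index bound for inputs of length `n`, as a word -/
def kap (ν : List Bool) (n : ℕ) : List Bool := (state k ν n).2

/-- the reduction to `H` -/
def gg (ν z : List Bool) : List Bool := G k ν z (kap k ν z.length)

end

/-- `k` consists of approximations of `H` -/
structure Approx (k : Bool → List Bool × List Bool → Bool) (H : DecisionProblem) : Prop where
  fp : ∀ b, FP (k b)
  sound : ∀ b x t, k b (x, t) = true → H x = b
  compl : ∀ x, ∃ T : ℕ, ∀ t : List Bool, T ≤ t.length → k (H x) (x, t) = true

end Pool.Agent.Hrd
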