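import Mathlib
import Pool.Agent.Hrd.Base

set_option autoImplicit false

/-!
# Detection of the codes that are not valid
-/

namespace Pool.Agent.Hrd

open Turing Function N68a2faeb N793a5b8e N487b59b3 Pool.Agent.Helper22
open Pool.Agent.Helper20.Cons (cAcc cRun cAns cOut cNum)

theorem enum_lt {w : List Bool} : ∃ n, n + 1 < 2 ^ (w.length + 1) ∧ enum n = w := by
  induction w with
  | nil => exact ⟨0, by norm_num, rfl⟩
  | cons b w ih =>
    obtain ⟨n, hn, rfl⟩ := ih
    cases b
    · refine ⟨2 * n + 1, ?_, enum_odd n⟩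
      rw [List.length_cons, pow_succ]
      omega
    · refine ⟨2 * n + 2, ?_, enum_even n⟩
      rw [List.length_cons, pow_succ]
      omega

theorem mem_strs_of_length {w t : List Bool} (h : 2 ^ (w.length + 1) ≤ t.length) :
    w ∈ strs t := by
  obtain ⟨n, hn, h1⟩ := enum_lt (w := w)
  have h2 := mem_strs (n := n) (t := t) (by omega)
  rwa [h1] at h2

theorem mem_strs_mono {w t t' : List Bool} (h : t.length ≤ t'.length) (hw : w ∈ strs t) :
    w ∈ strs t' := by
  rw [strs, List.mem_map] at hw ⊢
  obtain ⟨n, hn, h1⟩ := hw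
  rw [List.mem_range] at hn
  exact ⟨n, List.mem_range.2 (by omega), h1⟩

theorem exists_mem_strs (w : List Bool) : ∃ T : ℕ, ∀ t : List Bool, T ≤ t.length → w ∈ strs t :=
  ⟨_, fun _ ht => mem_strs_of_length ht⟩

theorem full_iff (r t : List Bool) : full r t = true ↔ 2 ^ (r.length + 1) ≤ t.length := by
  rw [full, decide_eq_true_eq, pw_eq, un_length]
  simp only [List.length_cons, List.length_nil]
  norm_num

theorem full_FP : FP fun p : List Bool × List Bool => full p.1 p.2 := by
  unfold full
  fun_prop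

theorem rt_FP : FP fun p : List Bool × (List Bool × List Bool) => rt p.1 p.2.1 p.2.2 := by
  unfold rt
  fun_prop

theorem rt_eq {v x t : List Bool} (h : padok (cs (cs v)) x t = true) : rt v x t = rb v x := by
  rw [padok_iff] at h
  rw [rt, rb, pw_eq, min_eq_left (by omega)]
  simp only [un, List.replicate_append_replicate]

/-- `chk` depends only on the length of the clock -/
theorem Ac_iff (b : Bool) (v x : List Bool) : Ac b v x ↔ ∃ w : List Bool,
    w.length ≤ (rb v x).length ∧ chk (jb b v) x w (rb v x) = true := by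
  constructor
  · rintro ⟨w, hw⟩
    exact ⟨w, ((chk_iff _ _ _ _).1 hw).1, hw⟩
  · rintro ⟨w, _, hw⟩
    exact ⟨w, hw⟩

theorem bad_FP : FP fun p : List Bool × List Bool => bad p.1 p.2 := by
  -- both
  have hjb : ∀ b : Bool, FP fun v : List Bool => jb b v := by
    intro b
    cases b
    · simp only [jb, Bool.false_eq_true, if_false]; fun_prop
    · simp only [jb, if_true]; fun_prop
  -- c = ((v, t), x)
  have hr : FP fun c : (List Bool × List Bool) × List Bool => rt c.1.1 c.2 c.1.2 :=
    rt_FP.comp (FP.pair (f := fun c : (List Bool × List Bool) × List Bool => c.1.1)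
      (g := fun c : (List Bool × List Bool) × List Bool => (c.2, c.1.2)) (by fun_prop)
      (by fun_prop))
  -- d = (c, z)
  have hr' : FP fun d : ((List Bool × List Bool) × List Bool) × List Bool =>
      rt d.1.1.1 d.1.2 d.1.1.2 := hr.comp FP.fst
  have hc : ∀ (b : Bool) (f : ((List Bool × List Bool) × List Bool) × List Bool → List Bool),
      FP f → FP fun d : ((List Bool × List Bool) × List Bool) × List Bool =>
        chk (jb b d.1.1.1) d.1.2 (f d) (rt d.1.1.1 d.1.2 d.1.1.2) := by
    intro b f hf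
    exact FP.chk ((hjb b).comp (by fun_prop)) (by fun_prop) hf hr'
  have hb1 : FP fun c : (List Bool × List Bool) × List Bool => both c.1.1 c.2 c.1.2 := by
    have h1 : FP fun d : ((List Bool × List Bool) × List Bool) × List Bool =>
        chk (jb true d.1.1.1) d.1.2 (cf d.2) (rt d.1.1.1 d.1.2 d.1.1.2) &&
          chk (jb false d.1.1.1) d.1.2 (cs d.2) (rt d.1.1.1 d.1.2 d.1.1.2) :=
      FP.and (hc true (fun d => cf d.2) (by fun_prop)) (hc false (fun d => cs d.2) (by fun_prop))
    have h2 := (FP.any_ctx (γ := (List Bool × List Bool) × List Bool) (β := List Bool) h1).comp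
      (FP.pair (f := fun c : (List Bool × List Bool) × List Bool => c)
        (g := fun c : (List Bool × List Bool) × List Bool => strs c.1.2) (by fun_prop)
        (by fun_prop))
    exact h2
  have hb2 : FP fun c : (List Bool × List Bool) × List Bool => none' c.1.1 c.2 c.1.2 := by
    have h1 : FP fun d : ((List Bool × List Bool) × List Bool) × List Bool =>
        chk (jb true d.1.1.1) d.1.2 d.2 (rt d.1.1.1 d.1.2 d.1.1.2) ||
          chk (jb false d.1.1.1) d.1.2 d.2 (rt d.1.1.1 d.1.2 d.1.1.2) :=
      FP.or (hc true (fun d => d.2) (by fun_prop)) (hc false (fun d => d.2) (by fun_prop))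
    have h2 := (FP.any_ctx (γ := (List Bool × List Bool) × List Bool) (β := List Bool) h1).comp
      (FP.pair (f := fun c : (List Bool × List Bool) × List Bool => c)
        (g := fun c : (List Bool × List Bool) × List Bool => strs c.1.2) (by fun_prop)
        (by fun_prop))
    have h3 : FP fun c : (List Bool × List Bool) × List Bool =>
        full (rt c.1.1 c.2 c.1.2) c.1.2 :=
      full_FP.comp (FP.pair (f := fun c : (List Bool × List Bool) × List Bool =>
        rt c.1.1 c.2 c.1.2) (g := fun c : (List Bool × List Bool) × List Bool => c.1.2) hr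
        (by fun_prop))
    exact h3.and h2.not
  have h4 : FP fun c : (List Bool × List Bool) × List Bool =>
      padok (cs (cs c.1.1)) c.2 c.1.2 && (both c.1.1 c.2 c.1.2 || none' c.1.1 c.2 c.1.2) :=
    FP.and (by fun_prop) (FP.or hb1 hb2)
  exact (FP.any_ctx (γ := List Bool × List Bool) (β := List Bool) h4).comp
      (FP.pair (f := fun c : List Bool × List Bool => c)
        (g := fun c : List Bool × List Bool => strs c.2) (by fun_prop) (by fun_prop))

theorem bad_false {v : List Bool} (h : Valid v) (t : List Bool) : bad v t = false := by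
  rw [bad, List.any_eq_false]
  intro x _ hx
  rw [Bool.and_eq_true, Bool.or_eq_true] at hx
  obtain ⟨hp, hx⟩ := hx
  rcases hx with hx | hx
  · rw [both, rt_eq hp, List.any_eq_true] at hx
    obtain ⟨z, _, hz⟩ := hx
    rw [Bool.and_eq_true] at hz
    exact (h x).1 ⟨_, hz.1⟩ ⟨_, hz.2⟩
  · rw [none', rt_eq hp, Bool.and_eq_true, full_iff, Bool.not_eq_true', List.any_eq_false] at hx
    obtain ⟨hf, hx⟩ := hx
    have key : ∀ b, ¬ Ac b v x := by
      intro b hb
      obtain ⟨w, hw1, hw2⟩ := (Ac_iff b v x).1 hb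
      refine hx w (mem_strs_of_length (le_trans (Nat.pow_le_pow_right (by norm_num) (by omega)) hf)) ?_
      rw [Bool.or_eq_true]
      cases b
      · exact Or.inr hw2
      · exact Or.inl hw2
    exact key true ((h x).2 (key false))

theorem bad_true {v : List Bool} (h : ¬ Valid v) :
    ∃ T : ℕ, ∀ t : List Bool, T ≤ t.length → bad v t = true := by
  rw [Valid] at h
  push Not at h
  obtain ⟨x, hx⟩ := h
  obtain ⟨T₁, hT₁⟩ := exists_mem_strs x
  have hp : ∀ t : List Bool, x.length ^ (cs (cs v)).length + (cs (cs v)).length ≤ t.length →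
      padok (cs (cs v)) x t = true := fun t ht => (padok_iff _ _ _).2 ht
  obtain ⟨E, hE⟩ : ∃ E, E = x.length ^ (cs (cs v)).length + (cs (cs v)).length := ⟨_, rfl⟩
  rw [← hE] at hp
  rcases hx with ⟨⟨w, hw⟩, w', hw'⟩ | ⟨h1, h2⟩
  · obtain ⟨T₂, hT₂⟩ := exists_mem_strs (cd w w')
    refine ⟨T₁ + T₂ + E, fun t ht => ?_⟩
    rw [bad, List.any_eq_true]
    refine ⟨x, hT₁ t (by omega), ?_⟩
    rw [hp t (by omega), Bool.true_and, Bool.or_eq_true]
    left
    rw [both, rt_eq (hp t (by omega)), List.any_eq_true]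
    refine ⟨_, hT₂ t (by omega), ?_⟩
    rw [cf_cd, cs_cd, hw, hw', Bool.and_self]
  · obtain ⟨P, hP⟩ : ∃ P, P = 2 ^ ((rb v x).length + 1) := ⟨_, rfl⟩
    refine ⟨T₁ + E + P, fun t ht => ?_⟩
    rw [bad, List.any_eq_true]
    refine ⟨x, hT₁ t (by omega), ?_⟩
    rw [hp t (by omega), Bool.true_and, Bool.or_eq_true]
    right
    rw [none', rt_eq (hp t (by omega)), Bool.and_eq_true, full_iff, Bool.not_eq_true',
      List.any_eq_false]
    refine ⟨by rw [← hP]; omega, fun w _ hw => ?_⟩
    rw [Bool.or_eq_true] at hw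
    rcases hw with hw | hw
    · exact h1 ⟨w, hw⟩
    · exact h2 ⟨w, hw⟩

theorem exists_valid {A : DecisionProblem} (hA : A ∈ NP ∩ coNP) :
    ∃ v, Valid v ∧ ∀ x, A x = true ↔ Ac true v x := by
  obtain ⟨v, h1, h0, h1', h0'⟩ := exists_presents hA
  have e1 : ∀ x, A x = true ↔ Ac true v x := by
    intro x
    constructor
    · intro hx
      obtain ⟨w, hw1, hw2, hw3⟩ := h1' x hx
      exact ⟨w, (chk_iff _ _ _ _).2 ⟨by rw [rb, un_length]; exact hw1,
        by rw [rb, un_length]; exact hw2, hw3⟩⟩
    · rintro ⟨w, hw⟩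
      exact h1 x w ((chk_iff _ _ _ _).1 hw).2.2
  have e0 : ∀ x, ¬ A x = true ↔ Ac false v x := by
    intro x
    constructor
    · intro hx
      obtain ⟨w, hw1, hw2, hw3⟩ := h0' x hx
      exact ⟨w, (chk_iff _ _ _ _).2 ⟨by rw [rb, un_length]; exact hw1,
        by rw [rb, un_length]; exact hw2, hw3⟩⟩
    · rintro ⟨w, hw⟩
      exact h0 x w ((chk_iff _ _ _ _).1 hw).2.2
  refine ⟨v, fun x => ?_, e1⟩
  rw [← e1, ← e0, not_not]

end Pool.Agent.Hrd
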