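import Mathlib
import Pool.Agent.Hrd.Base
import Pool.Agent.Helper21.Off.Esy

set_option autoImplicit false

/-!
# NP relative to a language of NP ∩ coNP
-/

namespace Pool.Agent.Hrd

open Turing Function N68a2faeb N793a5b8e N487b59b3 Pool.Agent.Helper22
open Pool.Agent.Helper21.Off (lc_length_le)

section

variable (M : OracleProc (List Bool × List Bool) Bool) (c : Bool → List Bool × List Bool → Bool)

/-- one step of the verification of the answers; the state is: the input, the answers so far
(latest first), ok -/
def qStep (s : (List Bool × List Bool) × (List Bool × Bool)) (it : List Bool) :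
    (List Bool × List Bool) × (List Bool × Bool) :=
  (s.1, (it.headD false :: s.2.1,
    s.2.2 && (if it.headD false then c true (M.query (s.1, s.2.1), it.tail)
      else c false (M.query (s.1, s.2.1), it.tail))))

variable {M c}

theorem qStep_FP (hc : ∀ b, FP (c b)) :
    FP fun p : List (List Bool) × ((List Bool × List Bool) × (List Bool × Bool)) =>
      p.1.foldl (qStep M c) p.2 := by
  refine FP.foldl (g := qStep M c) ?_ (B := fun n => 6 * n + 6) (by fun_prop) ?_
  · have h1 : FP fun p : ((List Bool × List Bool) × (List Bool × Bool)) × List Bool =>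
        M.query (p.1.1, p.1.2.1) := ((isPolyTime_iff _).1 M.query_poly).comp (by fun_prop)
    have h2 : ∀ b, FP fun p : ((List Bool × List Bool) × (List Bool × Bool)) × List Bool =>
        c b (M.query (p.1.1, p.1.2.1), p.2.tail) := fun b =>
      (hc b).comp (h1.pair (by fun_prop))
    have h3 : FP fun p : ((List Bool × List Bool) × (List Bool × Bool)) × List Bool =>
        p.2.headD false := FP.headD FP.snd _
    exact FP.pair (by fun_prop) (FP.pair (h3.cons (by fun_prop))
      (FP.and (by fun_prop) (FP.ite h3 (h2 true) (h2 false))))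
  · intro l a
    have h1 : (l.foldl (qStep M c) a).1 = a.1 ∧
        (l.foldl (qStep M c) a).2.1.length = a.2.1.length + l.length := by
      induction l generalizing a with
      | nil => exact ⟨rfl, rfl⟩
      | cons b l ih =>
        rw [List.foldl_cons]
        obtain ⟨e1, e2⟩ := ih (qStep M c a b)
        refine ⟨e1, ?_⟩
        rw [e2, List.length_cons]
        simp only [qStep, List.length_cons]
        omega
    have h2 := length_le_sz l
    obtain ⟨a1, a2, a3⟩ := a
    rcases hr : l.foldl (qStep M c) (a1, a2, a3) with ⟨r1, r2, r3⟩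
    rw [hr] at h1
    obtain ⟨e1, e2⟩ := h1
    simp only at e1 e2
    subst e1
    simp only [sz_pair, sz_bits, sz_bool] at *
    omega

theorem qStep_false (l : List (List Bool)) (s : (List Bool × List Bool) × (List Bool × Bool))
    (h : s.2.2 = false) : (l.foldl (qStep M c) s).2.2 = false := by
  induction l generalizing s with
  | nil => exact h
  | cons b l ih => exact ih _ (by simp [qStep, h])

theorem qStep_sound {S : DecisionProblem} (hc : ∀ b q w, c b (q, w) = true → S q = b)
    (a : List Bool × List Bool) (l : List (List Bool)) (n : ℕ)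
    (h : (l.foldl (qStep M c) (a, (M.answers S a n, true))).2.2 = true) :
    (l.foldl (qStep M c) (a, (M.answers S a n, true))).2.1 = M.answers S a (n + l.length) := by
  induction l generalizing n with
  | nil => rfl
  | cons it l ih =>
    rw [List.foldl_cons] at h ⊢
    have h1 : (qStep M c (a, (M.answers S a n, true)) it).2.2 = true := by
      by_contra hf
      rw [Bool.not_eq_true] at hf
      rw [qStep_false _ _ hf] at h
      exact Bool.false_ne_true h
    have h2 : S (M.query (a, M.answers S a n)) = it.headD false := by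
      simp only [qStep, Bool.true_and] at h1
      cases hb : it.headD false
      · rw [hb] at h1
        simp only [Bool.false_eq_true, if_false] at h1
        exact hc _ _ _ h1
      · rw [hb] at h1
        simp only [if_true] at h1
        exact hc _ _ _ h1
    have h3 : qStep M c (a, (M.answers S a n, true)) it =
        (a, (M.answers S a (n + 1), true)) := by
      have h4 : (qStep M c (a, (M.answers S a n, true)) it).2.1 = M.answers S a (n + 1) := by
        rw [OracleProc.answers, h2]
        rfl
      refine Prod.ext rfl (Prod.ext h4 h1)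
    rw [h3] at h ⊢
    rw [ih _ h, List.length_cons]
    congr 1
    omega

theorem qStep_compl {S : DecisionProblem} {D : ℕ}
    (a : List Bool × List Bool) (m : ℕ)
    (hc : ∀ n < m, ∃ w : List Bool, w.length ≤ D ∧
      c (S (M.query (a, M.answers S a n))) (M.query (a, M.answers S a n), w) = true)
    (n : ℕ) (hn : n ≤ m) : ∃ l : List (List Bool), l.length = n ∧ (∀ it ∈ l, it.length ≤ D + 1) ∧
      l.foldl (qStep M c) (a, ([], true)) = (a, (M.answers S a n, true)) := by
  induction n with
  | zero => exact ⟨[], rfl, by simp, rfl⟩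
  | succ n ih =>
    obtain ⟨l, h1, h2, h3⟩ := ih (by omega)
    obtain ⟨w, hw, hcw⟩ := hc n (by omega)
    refine ⟨l ++ [S (M.query (a, M.answers S a n)) :: w], by simp [h1], ?_, ?_⟩
    · intro it hit
      rcases List.mem_append.1 hit with h | h
      · exact h2 it h
      · rw [List.mem_singleton.1 h, List.length_cons]; omega
    · rw [List.foldl_append, h3, List.foldl_cons, List.foldl_nil]
      simp only [qStep, List.headD_cons, List.tail_cons, Bool.true_and, OracleProc.answers]
      cases hb : S (M.query (a, M.answers S a n))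
      · rw [hb] at hcw
        simp [hcw]
      · rw [hb] at hcw
        simp [hcw]

end

theorem NPo_low {S : DecisionProblem} (hS : S ∈ NP ∩ coNP) : NPo S ⊆ NP := by
  rintro L ⟨p, M, hL⟩
  obtain ⟨⟨p₁, S₁, hS₁, hL₁⟩, ⟨p₀, S₀, hS₀, hL₀⟩⟩ := hS
  let c : Bool → List Bool × List Bool → Bool := fun b => if b then wL S₁ p₁ else wL S₀ p₀
  have hcFP : ∀ b, FP (c b) := by
    intro b
    cases b
    · exact wL_FP ((isPolyTime_iff _).1 hS₀) p₀
    · exact wL_FP ((isPolyTime_iff _).1 hS₁) p₁
  have hsound : ∀ b q w, c b (q, w) = true → S q = b := by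
    intro b q w h
    cases b
    · have h1 : wL S₀ p₀ (q, w) = true := h
      have h2 := (hL₀ q).2 ⟨w, (wL_iff.1 h1).1, (wL_iff.1 h1).2⟩
      rw [compl_true] at h2
      simpa using h2
    · have h1 : wL S₁ p₁ (q, w) = true := h
      exact (hL₁ q).2 ⟨w, (wL_iff.1 h1).1, (wL_iff.1 h1).2⟩
  have hcompl : ∀ q, ∃ w : List Bool, w.length ≤ p₁.eval q.length + p₀.eval q.length ∧
      c (S q) (q, w) = true := by
    intro q
    cases hb : S q
    · have h1 : Sᶜ q = true := (compl_true _ _).2 (by simp [hb])
      obtain ⟨w, hw, hw'⟩ := (hL₀ q).1 h1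
      exact ⟨w, by omega, wL_iff.2 ⟨hw, hw'⟩⟩
    · obtain ⟨w, hw, hw'⟩ := (hL₁ q).1 hb
      exact ⟨w, by omega, wL_iff.2 ⟨hw, hw'⟩⟩
  have hMo := (isPolyTime_iff _).1 M.out_poly
  have hMc := (isPolyTime_iff _).1 M.clock_poly
  have hMq := (isPolyTime_iff _).1 M.query_poly
  -- the verifier
  have hfold : FP fun a : List Bool × List Bool =>
      (ld (cs a.2)).foldl (qStep M c) ((a.1, cf a.2), (([] : List Bool), true)) := by
    have e1 : FP fun a : List Bool × List Bool => ld (cs a.2) := FP.ld (FP.cs FP.snd)
    have e2 : FP fun a : List Bool × List Bool => ((a.1, cf a.2), (([] : List Bool), true)) :=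
      (FP.fst.pair (FP.cf FP.snd)).pair ((FP.const _).pair (FP.const _))
    exact (qStep_FP hcFP).comp (e1.pair e2)
  let V : List Bool × List Bool → Bool := fun a =>
    (((ld (cs a.2)).foldl (qStep M c) ((a.1, cf a.2), (([] : List Bool), true))).2.2 &&
      leneq ((ld (cs a.2)).foldl (qStep M c) ((a.1, cf a.2), (([] : List Bool), true))).2.1
        (M.clock (a.1, cf a.2))) &&
    (M.out ((a.1, cf a.2),
      ((ld (cs a.2)).foldl (qStep M c) ((a.1, cf a.2), (([] : List Bool), true))).2.1) &&
      decide ((cf a.2).length ≤ (un (p.eval a.1.length)).length))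
  have hV : FP V := by
    have e0 : FP fun a : List Bool × List Bool => (a.1, cf a.2) := FP.fst.pair (FP.cf FP.snd)
    have e1 : FP fun a : List Bool × List Bool => M.clock (a.1, cf a.2) := hMc.comp e0
    have e2 : FP fun a : List Bool × List Bool => M.out ((a.1, cf a.2),
        ((ld (cs a.2)).foldl (qStep M c) ((a.1, cf a.2), (([] : List Bool), true))).2.1) :=
      hMo.comp (e0.pair hfold.snd'.fst')
    have e3 : FP fun a : List Bool × List Bool =>
        decide ((cf a.2).length ≤ (un (p.eval a.1.length)).length) :=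
      FP.length_le (FP.cf FP.snd) (FP.un_poly FP.fst p)
    exact (hfold.snd'.snd'.and (FP.leneq hfold.snd'.fst' e1)).and (e2.and e3)
  -- bounds
  obtain ⟨B0, hB0, hB0m, hB0le⟩ := hMc.bound
  obtain ⟨B1, hB1, hB1m, hB1le⟩ := hMq.bound
  let m : ℕ → ℕ := fun n => B0 (6 * n + 1 + 3 * p.eval n)
  let Q : ℕ → ℕ := fun n => B1 (2 * (6 * n + 1 + 3 * p.eval n) + 1 + 3 * m n)
  let D : ℕ → ℕ := fun n => p₁.eval (Q n) + p₀.eval (Q n)
  have hp : PB fun n => p.eval n := PB.poly p
  have hm : PB m := by
    have h1 : PB fun n => 6 * n + 1 + 3 * p.eval n := by fun_prop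
    exact hB0.comp h1
  have hQ : PB Q := by
    have h1 : PB fun n => 2 * (6 * n + 1 + 3 * p.eval n) + 1 + 3 * m n := by fun_prop
    exact hB1.comp h1
  have hD : PB D := ((PB.poly p₁).comp hQ).add ((PB.poly p₀).comp hQ)
  have hPB : PB fun n => 2 * p.eval n + 1 + m n * (2 * (D n + 1) + 1) := by fun_prop
  obtain ⟨P, hP⟩ := exists_poly hPB
  refine ⟨P, V, (isPolyTime_iff _).2 hV, fun x => ?_⟩
  rw [hL]
  constructor
  · rintro ⟨w, hw, hrun⟩
    have hsz : sz (x, w) ≤ 6 * x.length + 1 + 3 * p.eval x.length := by
      simp only [sz_pair, sz_bits]; omega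
    have hclk : (M.clock (x, w)).length ≤ m x.length := by
      have h1 := (hB0le (x, w)).trans (hB0m hsz)
      rw [sz_bits] at h1
      show _ ≤ B0 (6 * x.length + 1 + 3 * p.eval x.length)
      omega
    obtain ⟨l, h1, h2, h3⟩ := qStep_compl (M := M) (c := c) (S := S) (D := D x.length) (x, w)
      (M.clock (x, w)).length (fun n hn => by
        obtain ⟨w', hw', hc'⟩ := hcompl (M.query ((x, w), M.answers S (x, w) n))
        refine ⟨w', hw'.trans ?_, hc'⟩
        have h4 : (M.query ((x, w), M.answers S (x, w) n)).length ≤ Q x.length := by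
          have h5 := hB1le ((x, w), M.answers S (x, w) n)
          rw [sz_bits, sz_pair, sz_bits, OracleProc.answers_length] at h5
          have h6 := hB1m (show 2 * sz (x, w) + 1 + 3 * n ≤
            2 * (6 * x.length + 1 + 3 * p.eval x.length) + 1 + 3 * m x.length by omega)
          show _ ≤ B1 (2 * (6 * x.length + 1 + 3 * p.eval x.length) + 1 + 3 * m x.length)
          omega
        exact Nat.add_le_add (poly_mono p₁ h4) (poly_mono p₀ h4)) _ le_rfl
    refine ⟨cd w (lc l), ?_, ?_⟩
    · rw [cd_length]
      have h4 := lc_length_le l _ h2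
      rw [h1] at h4
      have h5 := Nat.mul_le_mul_right (2 * (D x.length + 1) + 1) hclk
      have h6 := hP x.length
      omega
    · simp only [V, cf_cd, cs_cd, ld_lc, h3, Bool.and_eq_true, decide_eq_true_eq, leneq_iff,
        OracleProc.answers_length, un_length, true_and]
      exact ⟨hrun, hw⟩
  · rintro ⟨u, -, hu⟩
    simp only [V, Bool.and_eq_true, decide_eq_true_eq, leneq_iff, un_length] at hu
    obtain ⟨⟨h1, h2⟩, h3, h4⟩ := hu
    have h5 := qStep_sound (M := M) (c := c) (S := S) hsound (x, cf u) (ld (cs u)) 0 h1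
    have h6 : ((ld (cs u)).foldl (qStep M c) ((x, cf u), (([] : List Bool), true))).2.1 =
        M.answers S (x, cf u) (0 + (ld (cs u)).length) := h5
    rw [h6, OracleProc.answers_length] at h2
    rw [h6, h2] at h3
    exact ⟨cf u, h4, h3⟩

end Pool.Agent.Hrd
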