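import Mathlib
import Pool.Agent.Hrd.Base
import Pool.Agent.Helper21.Off.Esy

set_option autoImplicit false

/-!
# Decidable languages: reducibility, and the languages of NP ∩ coNP
-/

namespace Pool.Agent.Hrd

open Turing Function N68a2faeb N793a5b8e N487b59b3 Pool.Agent.Helper22

theorem CE.of_reducible {H H' : DecisionProblem} {f : List Bool → List Bool} (hf : IsPolyTime f)
    (h : ∀ x, H' x = H (f x)) (hD : CE H) : CE H' := by
  obtain ⟨R, hR, hR'⟩ := hD
  have h1 : FP fun a : List Bool × List Bool => R (f a.1, a.2) :=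
    ((isPolyTime_iff _).1 hR).comp ((((isPolyTime_iff _).1 hf).comp FP.fst).pair FP.snd)
  refine ⟨_, (isPolyTime_iff _).2 h1, fun x => ?_⟩
  rw [h, hR']

theorem Dec.of_reducible {H H' : DecisionProblem} (h : ManyOneReducible H' H) (hD : Dec H) :
    Dec H' := by
  obtain ⟨f, hf, hf'⟩ := h
  refine ⟨hD.1.of_reducible hf hf', hD.2.of_reducible hf fun x => ?_⟩
  rw [Pi.compl_apply, Pi.compl_apply, hf']

theorem ce_of_mem {L : DecisionProblem} (hL : L ∈ NP) : CE L := by
  obtain ⟨p, R, hR, hR'⟩ := hL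
  have h1 : FP fun a : List Bool × List Bool =>
      decide (a.2.length ≤ (un (p.eval a.1.length)).length) && R a :=
    (FP.length_le FP.snd (FP.un_poly FP.fst p)).and ((isPolyTime_iff _).1 hR)
  refine ⟨_, (isPolyTime_iff _).2 h1, fun x => ?_⟩
  refine (hR' x).trans (exists_congr fun w => ?_)
  rw [Bool.and_eq_true, decide_eq_true_iff, un_length]

theorem dec_of_mem {L : DecisionProblem} (hL : L ∈ NP ∩ coNP) : Dec L :=
  ⟨ce_of_mem hL.1, ce_of_mem hL.2⟩

end Pool.Agent.Hrd
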