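import Mathlib
import Pool.Agent.Hrd.Bad

set_option autoImplicit false

/-!
# The choice of the reduction
-/

namespace Pool.Agent.Hrd

open Turing Function N68a2faeb N793a5b8e N487b59b3 Pool.Agent.Helper22
open Pool.Agent.Helper20.Cons (cAcc cRun cAns cOut cNum)

theorem exists_approx {H : DecisionProblem} (hD : Dec H) : ∃ k, Approx k H := by
  obtain ⟨⟨R₁, hR₁, h₁⟩, R₀, hR₀, h₀⟩ := hD
  have f₁ := (isPolyTime_iff _).1 hR₁
  have f₀ := (isPolyTime_iff _).1 hR₀
  have key : ∀ R : List Bool × List Bool → Bool, FP R →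
      FP fun p : List Bool × List Bool => (strs p.2).any fun w => R (p.1, w) := by
    intro R hR
    exact (FP.any_ctx (γ := List Bool) (β := List Bool) hR).comp
      (FP.pair (f := fun p : List Bool × List Bool => p.1)
        (g := fun p : List Bool × List Bool => strs p.2) (by fun_prop) (by fun_prop))
  refine ⟨fun b p => (strs p.2).any fun w => (if b then R₁ else R₀) (p.1, w), ?_, ?_, ?_⟩
  · intro b
    cases b
    · exact key R₀ f₀
    · exact key R₁ f₁
  · intro b x t h
    rw [List.any_eq_true] at h
    obtain ⟨w, _, hw⟩ := h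
    cases b
    · have h2 := (h₀ x).2 ⟨w, hw⟩
      simpa using h2
    · exact (h₁ x).2 ⟨w, hw⟩
  · intro x
    have h3 : ∃ w, (if H x then R₁ else R₀) (x, w) = true := by
      cases hx : H x with
      | true => exact (h₁ x).1 hx
      | false => exact (h₀ x).1 (by simp [hx])
    obtain ⟨w, hw⟩ := h3
    obtain ⟨T, hT⟩ := exists_mem_strs w
    refine ⟨T, fun t ht => ?_⟩
    rw [List.any_eq_true]
    exact ⟨w, hT t ht, hw⟩

section

variable {k : Bool → List Bool × List Bool → Bool}

theorem refute_FP (hk : ∀ b, FP (k b)) :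
    FP fun c : ((List Bool × List Bool) × List Bool) × List Bool =>
      refute k c.1.1.1 c.1.2 c.1.1.2 c.2 := by
  have hr : FP fun c : ((List Bool × List Bool) × List Bool) × List Bool =>
      rt c.1.1.1 (cf c.2) c.1.1.2 := rt_FP.comp (FP.pair
        (f := fun c : ((List Bool × List Bool) × List Bool) × List Bool => c.1.1.1)
        (g := fun c : ((List Bool × List Bool) × List Bool) × List Bool => (cf c.2, c.1.1.2))
        (by fun_prop) (by fun_prop))
  have k1 : FP fun c : ((List Bool × List Bool) × List Bool) × List Bool =>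
      k true (fjt c.1.2 (cf c.2) c.1.1.2, c.1.1.2) := (hk true).comp (by fun_prop)
  have k0 : FP fun c : ((List Bool × List Bool) × List Bool) × List Bool =>
      k false (fjt c.1.2 (cf c.2) c.1.1.2, c.1.1.2) := (hk false).comp (by fun_prop)
  have c1 : FP fun c : ((List Bool × List Bool) × List Bool) × List Bool =>
      chk (jb true c.1.1.1) (cf c.2) (cs c.2) (rt c.1.1.1 (cf c.2) c.1.1.2) := by
    simp only [jb, if_true]
    exact FP.chk (by fun_prop) (by fun_prop) (by fun_prop) hr
  have c0 : FP fun c : ((List Bool × List Bool) × List Bool) × List Bool =>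
      chk (jb false c.1.1.1) (cf c.2) (cs c.2) (rt c.1.1.1 (cf c.2) c.1.1.2) := by
    simp only [jb, Bool.false_eq_true, if_false]
    exact FP.chk (by fun_prop) (by fun_prop) (by fun_prop) hr
  unfold refute
  exact FP.and (by fun_prop) (FP.or (FP.and c1 k0) (FP.and c0 k1))

theorem flag_FP (hk : ∀ b, FP (k b)) :
    FP fun c : (List Bool × List Bool) × List Bool => flag k c.1.1 c.1.2 c.2 := by
  have h1 := FP.any_ctx (γ := (List Bool × List Bool) × List Bool) (β := List Bool)
    (refute_FP hk)
  have h2 := h1.comp (FP.pair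
    (f := fun c : (List Bool × List Bool) × List Bool => c)
    (g := fun c : (List Bool × List Bool) × List Bool => strs c.1.2) (by fun_prop)
    (by fun_prop))
  exact h2.not

end

theorem sel_FP {k : Bool → List Bool × List Bool → Bool} (hk : ∀ b, FP (k b)) :
    FP fun p : List Bool × List Bool => sel k p.1 p.2 := by
  have h1 := flag_FP hk
  have h2 := FP.map_ctx (γ := List Bool × List Bool) (β := List Bool) (δ := Bool × List Bool)
    (h := fun c : (List Bool × List Bool) × List Bool => (flag k c.1.1 c.1.2 c.2, c.2))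
    (h1.pair FP.snd)
  have h3 := h2.comp (FP.pair
    (f := fun a : List Bool × List Bool => (a.1, a.2))
    (g := fun a : List Bool × List Bool => strs a.2) (by fun_prop) (by fun_prop))
  exact (first_FP.comp (h3.pair (FP.const (false, ([] : List Bool))))).snd'

/-- `sel` depends only on the length of the clock: not needed, since all uses are at long clocks -/
theorem sel_conv {k : Bool → List Bool × List Bool → Bool} {H : DecisionProblem}
    (hk : Approx k H) {v : List Bool} (hv : Valid v)
    (hex : ∃ j, ∀ x, Ac true v x ↔ H (fj j x) = true) :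
    ∃ (j : List Bool) (T : ℕ), (∀ x, Ac true v x ↔ H (fj j x) = true) ∧
      ∀ t : List Bool, T ≤ t.length → sel k v t = j := by
  classical
  replace hex : ∃ n, ∀ x, Ac true v x ↔ H (fj (enum n) x) = true := by
    obtain ⟨j, hj⟩ := hex
    obtain ⟨n, rfl⟩ := enum_surj j
    exact ⟨n, hj⟩
  have hcorr := Nat.find_spec hex
  have hmin := fun m (hm : m < Nat.find hex) => Nat.find_min hex hm
  generalize Nat.find hex = n at hcorr hmin
  have hpad : ∀ x : List Bool, ∃ T : ℕ, ∀ t : List Bool, T ≤ t.length →
      padok (cs (cs v)) x t = true := by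
    intro x
    exact ⟨_, fun t ht => (padok_iff _ _ _).2 ht⟩
  -- the others are refuted
  have hbad : ∀ m < n, ∃ T : ℕ, ∀ t : List Bool, T ≤ t.length →
      flag k v t (enum m) = false := by
    intro m hm
    have h1 := hmin m hm
    push Not at h1
    obtain ⟨y, hy⟩ := h1
    have h2 : ∃ (w : List Bool) (b : Bool), chk (jb b v) y w (rb v y) = true ∧
        H (fj (enum m) y) = !b := by
      rcases hy with ⟨⟨w, hw⟩, hLn⟩ | ⟨hY, hLy⟩
      · exact ⟨w, true, hw, by simpa using hLn⟩
      · have hN : Ac false v y := by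
          by_contra hN
          exact hY ((hv y).2 hN)
        obtain ⟨w, hw⟩ := hN
        exact ⟨w, false, hw, by simpa using hLy⟩
    obtain ⟨w, b, hw, hb⟩ := h2
    obtain ⟨T₁, hT₁⟩ := hpad y
    obtain ⟨T₂, hT₂⟩ := exists_mem_strs (cd y w)
    obtain ⟨T₃, hT₃⟩ := hk.compl (fj (enum m) y)
    refine ⟨y.length ^ (cs (enum m)).length + (T₁ + (T₂ + T₃)), fun t ht => ?_⟩
    have h3 : y.length ^ (cs (enum m)).length ≤ t.length := by omega
    have h4 : cd y w ∈ strs t := hT₂ t (by omega)
    have h5 := hT₁ t (by omega)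
    have h6 := hT₃ t (by omega)
    rw [hb] at h6
    simp only [flag, Bool.not_eq_false', List.any_eq_true]
    refine ⟨_, h4, ?_⟩
    simp only [refute, cf_cd, cs_cd, fjt_eq _ _ _ h3, pw_eq, un_length, Bool.and_eq_true,
      Bool.or_eq_true, decide_eq_true_eq, rt_eq h5]
    refine ⟨⟨h5, by omega⟩, ?_⟩
    cases b
    · exact Or.inr ⟨hw, h6⟩
    · exact Or.inl ⟨hw, h6⟩
  have hgood : ∀ t : List Bool, flag k v t (enum n) = true := by
    intro t
    simp only [flag, Bool.not_eq_true', List.any_eq_false]
    intro z _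
    simp only [refute, pw_eq, un_length, Bool.and_eq_true, Bool.or_eq_true, decide_eq_true_eq]
    rintro ⟨⟨hp, hc⟩, hw⟩
    have h3 : (cf z).length ^ (cs (enum n)).length ≤ t.length := by omega
    rw [fjt_eq _ _ _ h3, rt_eq hp] at hw
    rcases hw with ⟨hF, hS⟩ | ⟨hF, hS⟩
    · have h4 : Ac true v (cf z) := ⟨_, hF⟩
      have h5 := hk.sound _ _ _ hS
      rw [(hcorr _).1 h4] at h5
      exact Bool.noConfusion h5
    · have h4 : Ac false v (cf z) := ⟨_, hF⟩
      have h5 := hk.sound _ _ _ hS
      exact (hv _).1 ((hcorr _).2 h5) h4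
  -- a common bound
  have hT : ∃ T : ℕ, ∀ m < n, ∀ t : List Bool, T ≤ t.length →
      flag k v t (enum m) = false := by
    choose! T hT using hbad
    refine ⟨(Finset.range n).sup T, fun m hm t ht => hT m hm t (le_trans ?_ ht)⟩
    exact Finset.le_sup (f := T) (Finset.mem_range.2 hm)
  obtain ⟨T, hT⟩ := hT
  refine ⟨enum n, T + n + 1, hcorr, fun t ht => ?_⟩
  obtain ⟨l, hl⟩ := strs_split (n := n) (t := t) (by omega)
  unfold sel
  rw [hl, List.map_append, List.map_cons, hgood t, first_spec _ _ _ _ rfl]
  intro e he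
  simp only [List.map_map, List.mem_map, List.mem_range, Function.comp_apply] at he
  obtain ⟨m, hm, rfl⟩ := he
  exact hT m hm t (by omega)

theorem G_FP {k : Bool → List Bool × List Bool → Bool} (hk : ∀ b, FP (k b)) (ν : List Bool) :
    FP fun p : List Bool × List Bool => G k ν p.1 p.2 := by
  have hiv : FP fun p : List Bool × List Bool => iv p.1 := by
    unfold iv
    fun_prop
  have hij : FP fun p : List Bool × List Bool => ij k p.1 :=
    (sel_FP hk).comp (FP.pair (f := fun p : List Bool × List Bool => iv p.1)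
      (g := fun p : List Bool × List Bool => p.1) hiv FP.fst)
  have hb : FP fun p : List Bool × List Bool => bad (iv p.1) p.1 :=
    bad_FP.comp (FP.pair (f := fun p : List Bool × List Bool => iv p.1)
      (g := fun p : List Bool × List Bool => p.1) hiv FP.fst)
  have ha : FP fun p : List Bool × List Bool => act k p.1 p.2 := by
    unfold act
    fun_prop
  unfold G
  fun_prop

end Pool.Agent.Hrd
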