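import Mathlib
import Pool.Agent.Hrd.Sel

set_option autoImplicit false

/-!
# Looking back in polynomial time
-/

namespace Pool.Agent.Hrd

open Turing Function N68a2faeb N793a5b8e N487b59b3 Pool.Agent.Helper22
open Pool.Agent.Helper20.Cons (cAcc cRun cAns cOut cNum)

variable {k : Bool → List Bool × List Bool → Bool} {ν : List Bool}

/-- runs a code `j` on `y` with the bound `r`; the input is `(j, (r, y))` -/
def runC : OracleProc (List Bool × (List Bool × List Bool)) Bool where
  clock := fun a => cNum a.1 a.2.1 a.2.2
  query := fun s => (fjt (cf (cs s.1.1)) (cd s.1.2.2 s.2) s.1.2.1).take s.1.2.1.length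
  out := fun s => cOut s.1.1 s.1.2.1 s.1.2.2 s.2
  clock_poly := (isPolyTime_iff _).2 (by
    unfold cNum
    exact FP.take (by fun_prop) (by fun_prop))
  query_poly := (isPolyTime_iff _).2 (FP.take (by fun_prop) (by fun_prop))
  out_poly := (isPolyTime_iff _).2 (by
    have h4 : FP fun p : (List Bool × (List Bool × List Bool)) × List Bool =>
        (fjt (cs (cs p.1.1)) (cd p.1.2.2 p.2) p.1.2.1).headD false := FP.headD (by fun_prop) _
    unfold cOut
    fun_prop)

theorem runC_answers (X : Oracle) (j r y : List Bool) (n : ℕ) :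
    runC.answers X (j, (r, y)) n = cAns j r y X n := by
  induction n with
  | zero => rfl
  | succ n ih => rw [OracleProc.answers, cAns, ih]; rfl

theorem runC_run (X : Oracle) (j r y : List Bool) :
    runC.run X (j, (r, y)) = cRun j r y X := by
  rw [OracleProc.run, runC_answers]
  rfl

/-- runs with an oracle given by a polynomial time function -/
theorem cRun_FP {γ : Type} [N487b59b3 γ] {o : γ × List Bool → Bool} (ho : FP o) :
    FP fun p : γ × (List Bool × (List Bool × List Bool)) =>
      cRun p.2.1 p.2.2.1 p.2.2.2 (fun q => o (p.1, q)) := by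
  refine (congrArg FP (funext fun p => ?_)).mp (FP.runOracle runC ho)
  obtain ⟨c, j, r, y⟩ := p
  exact runC_run _ j r y

theorem orc_FP (hk : ∀ b, FP (k b)) (b : Bool) :
    FP fun p : List (List Bool) × List Bool => orc k ν b p.1 p.2 := by
  have h1 : FP fun p : List (List Bool) × List Bool => (p.1.drop p.2.length).headD [] :=
    FP.headD (FP.drop FP.fst FP.snd) []
  have h2 : FP fun p : List (List Bool) × List Bool =>
      G k ν p.2 ((p.1.drop p.2.length).headD []) := (G_FP hk ν).comp (FP.snd.pair h1)
  have h3 : FP fun p : List (List Bool) × List Bool => un p.1.length := FP.un_length FP.fst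
  exact (hk b).comp (h2.pair h3)

theorem accB_FP (hk : ∀ b, FP (k b)) :
    FP fun p : List (List Bool) × (List Bool × (List Bool × List Bool)) =>
      accB k ν p.2.1 p.2.2.1 p.2.2.2 p.1 := by
  have h1 := cRun_FP (orc_FP (ν := ν) hk true)
  have h2 : FP fun p : (List (List Bool) × (List Bool × (List Bool × List Bool))) × List Bool =>
      cRun p.1.2.1 p.1.2.2.1 (cd p.1.2.2.2 p.2) (fun q => orc k ν true p.1.1 q) :=
    h1.comp (f := fun p : (List (List Bool) × (List Bool × (List Bool × List Bool))) ×
      List Bool => (p.1.1, (p.1.2.1, (p.1.2.2.1, cd p.1.2.2.2 p.2)))) (by fun_prop)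
  have h3 : FP fun p : (List (List Bool) × (List Bool × (List Bool × List Bool))) × List Bool =>
      decide (p.2.length ≤ p.1.2.2.1.length) := by fun_prop
  have h4 := FP.any_ctx (h3.and h2)
  have h5 : FP fun p : List (List Bool) × (List Bool × (List Bool × List Bool)) =>
      strs (un p.1.length) := FP.strs (FP.un_length FP.fst)
  exact h4.comp (FP.id.pair h5)

theorem known_FP (hk : ∀ b, FP (k b)) :
    FP fun p : List (List Bool) × List Bool => known k ν p.2 p.1 := by
  have h1 : ∀ b, FP fun p : (List (List Bool) × List Bool) × List Bool =>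
      orc k ν b p.1.1 p.2 := fun b =>
    (orc_FP (ν := ν) hk b).comp (f := fun p : (List (List Bool) × List Bool) × List Bool =>
      (p.1.1, p.2)) (by fun_prop)
  have h3 : FP fun p : (List (List Bool) × List Bool) × List Bool =>
      decide (p.2.length ≤ p.1.2.length) := by fun_prop
  have h4 := FP.any_ctx (h3.and ((h1 true).or (h1 false)).not)
  have h5 : FP fun p : List (List Bool) × List Bool => strs (un p.1.length) :=
    FP.strs (FP.un_length FP.fst)
  exact (h4.comp (FP.id.pair h5)).not

theorem viol_FP (hk : ∀ b, FP (k b)) :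
    FP fun p : (List (List Bool) × List Bool) × List Bool => viol k ν p.1.2 p.2 p.1.1 := by
  have e1 : FP fun p : (List (List Bool) × List Bool) × List Bool => un p.1.1.length :=
    FP.un_length (by fun_prop)
  have e2 : FP fun p : (List (List Bool) × List Bool) × List Bool =>
      rt p.1.2 p.2 (un p.1.1.length) :=
    rt_FP.comp (f := fun p : (List (List Bool) × List Bool) × List Bool =>
      (p.1.2, (p.2, un p.1.1.length))) (by fun_prop)
  have e3 : FP fun p : (List (List Bool) × List Bool) × List Bool =>
      full (rt p.1.2 p.2 (un p.1.1.length)) (un p.1.1.length) := full_FP.comp (e2.pair e1)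
  have e4 : FP fun p : (List (List Bool) × List Bool) × List Bool =>
      padok (cs (cs p.1.2)) p.2 (un p.1.1.length) := by fun_prop
  have e5 : FP fun p : (List (List Bool) × List Bool) × List Bool =>
      known k ν (rt p.1.2 p.2 (un p.1.1.length)) p.1.1 :=
    (known_FP (ν := ν) hk).comp (f := fun p : (List (List Bool) × List Bool) × List Bool =>
      (p.1.1, rt p.1.2 p.2 (un p.1.1.length))) (by fun_prop)
  have e6 : ∀ b, FP fun p : (List (List Bool) × List Bool) × List Bool =>
      k b (p.2, un p.1.1.length) := fun b =>
    (hk b).comp (f := fun p : (List (List Bool) × List Bool) × List Bool =>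
      (p.2, un p.1.1.length)) (by fun_prop)
  have e7 : FP fun p : (List (List Bool) × List Bool) × List Bool =>
      accB k ν (cf p.1.2) (rt p.1.2 p.2 (un p.1.1.length)) p.2 p.1.1 :=
    (accB_FP (ν := ν) hk).comp (f := fun p : (List (List Bool) × List Bool) × List Bool =>
      (p.1.1, (cf p.1.2, (rt p.1.2 p.2 (un p.1.1.length), p.2)))) (by fun_prop)
  have e8 : FP fun p : (List (List Bool) × List Bool) × List Bool =>
      accB k ν (cf (cs p.1.2)) (rt p.1.2 p.2 (un p.1.1.length)) p.2 p.1.1 :=
    (accB_FP (ν := ν) hk).comp (f := fun p : (List (List Bool) × List Bool) × List Bool =>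
      (p.1.1, (cf (cs p.1.2), (rt p.1.2 p.2 (un p.1.1.length), p.2)))) (by fun_prop)
  exact ((e4.and e3).and e5).and
    (((e6 true).and (e7.not.or e8)).or ((e6 false).and (e7.or e8.not)))

theorem req_FP (hk : ∀ b, FP (k b)) :
    FP fun s : List (List Bool) × List Bool => req k ν s := by
  have h1 : FP fun p : (List (List Bool) × List Bool) × List Bool =>
      viol k ν (enumU p.1.2) p.2 p.1.1 :=
    (viol_FP (ν := ν) hk).comp (f := fun p : (List (List Bool) × List Bool) × List Bool =>
      ((p.1.1, enumU p.1.2), p.2)) (by fun_prop)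
  have h5 : FP fun p : List (List Bool) × List Bool => strs (un p.1.length) :=
    FP.strs (FP.un_length FP.fst)
  exact (FP.any_ctx h1).comp (FP.id.pair h5)

theorem step_FP (hk : ∀ b, FP (k b)) :
    FP fun s : List (List Bool) × List Bool => step k ν s := by
  have h1 := req_FP (ν := ν) hk
  have h2 : FP fun s : List (List Bool) × List Bool => s.1 ++ [s.2] :=
    FP.append FP.fst (FP.snd.cons (FP.const []))
  have h3 : FP fun s : List (List Bool) × List Bool =>
      if req k ν s then true :: s.2 else s.2 :=
    FP.ite h1 ((FP.const true).cons FP.snd) FP.snd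
  exact h2.pair h3

theorem step_sz (a : List (List Bool) × List Bool) (i : ℕ) :
    ((step k ν)^[i] a).2.length ≤ a.2.length + i ∧
      sz ((step k ν)^[i] a).1 ≤ sz a.1 + i * (6 * (a.2.length + i) + 1) := by
  induction i with
  | zero => simp
  | succ i ih =>
    rw [Function.iterate_succ_apply']
    obtain ⟨h1, h2⟩ := ih
    generalize hs : (step k ν)^[i] a = s at h1 h2
    constructor
    · simp only [step]
      split_ifs
      · simp only [List.length_cons]; omega
      · omega
    · simp only [step, sz_append, sz_cons, sz_nil, sz_bits]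
      nlinarith

theorem kap_FP (hk : ∀ b, FP (k b)) : FP fun z : List Bool => kap k ν z.length := by
  have h1 : FP fun p : List Bool × (List (List Bool) × List Bool) =>
      (step k ν)^[p.1.length] p.2 := by
    refine FP.iterate (f := step k ν) (step_FP hk)
      (B := fun n => 2 * (n + n * (6 * (n + n) + 1)) + 1 + 3 * (n + n)) (by fun_prop) ?_
    intro l a i hi
    obtain ⟨h2, h3⟩ := step_sz (k := k) (ν := ν) a i
    have h4 := length_le_sz l
    have h5 : a.2.length ≤ sz l + sz a := by
      obtain ⟨a1, a2⟩ := a
      simp only [sz_pair, sz_bits]; omega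
    have h6 : sz a.1 ≤ sz l + sz a := by
      obtain ⟨a1, a2⟩ := a
      simp only [sz_pair]; omega
    have h7 : i ≤ sz l + sz a := by omega
    have h8 : i * (6 * (a.2.length + i) + 1) ≤
        (sz l + sz a) * (6 * ((sz l + sz a) + (sz l + sz a)) + 1) :=
      Nat.mul_le_mul h7 (by omega)
    rcases hq : (step k ν)^[i] a with ⟨u, v⟩
    rw [hq] at h2 h3
    rw [sz_pair, sz_bits]
    simp only at h2 h3 ⊢
    omega
  exact (h1.comp (FP.id.pair (FP.const (([], []) : List (List Bool) × List Bool)))).snd'

theorem gg_FP (hk : ∀ b, FP (k b)) : FP fun z : List Bool => gg k ν z :=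
  (G_FP hk ν).comp (FP.id.pair (kap_FP hk))

end Pool.Agent.Hrd
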