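import Mathlib
import Pool.Agent.Hrd.Sel

set_option autoImplicit false

/-!
# Looking back
-/

namespace Pool.Agent.Hrd

open Turing Function N68a2faeb N793a5b8e N487b59b3 Pool.Agent.Helper22
open Pool.Agent.Helper20.Cons (cAcc cRun cAns cOut cNum cAcc_congr)

variable {k : Bool → List Bool × List Bool → Bool} {H : DecisionProblem} {ν : List Bool}

/-- the new language -/
def Hp (k : Bool → List Bool × List Bool → Bool) (H : DecisionProblem) (ν : List Bool) :
    DecisionProblem := fun z => H (gg k ν z)

/-- `m` codes two verifiers (with oracle) and an exponent; at `x` they do not show that `H` is in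
NP ∩ coNP relative to `H'` -/
def Vio (H H' : DecisionProblem) (m x : List Bool) : Prop :=
  ¬ ((H x = true ↔ cAcc (cf m) (rb m x) H' x) ∧ (¬ H x = true ↔ cAcc (cf (cs m)) (rb m x) H' x))

theorem state_succ (n : ℕ) : state k ν (n + 1) = step k ν (state k ν n) := by
  rw [state, iterate_succ_apply', state]

theorem state_fst (n : ℕ) : (state k ν n).1 = (List.range n).map (kap k ν) := by
  induction n with
  | zero => rfl
  | succ n ih =>
    rw [state_succ, step, ih, List.range_succ, List.map_append]
    rfl

theorem state_length (n : ℕ) : (state k ν n).1.length = n := by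
  rw [state_fst, List.length_map, List.length_range]

theorem state_drop {q n : ℕ} (h : q < n) :
    ((state k ν n).1.drop q).headD [] = kap k ν q := by
  rw [state_fst, List.drop_eq_getElem_cons (by simpa using h)]
  simp

theorem kap_succ (n : ℕ) : kap k ν (n + 1) =
    if req k ν (state k ν n) then true :: kap k ν n else kap k ν n := by
  rw [kap, state_succ]
  rfl

theorem kap_mono : Monotone fun n => (kap k ν n).length := by
  refine monotone_nat_of_le_succ fun n => ?_
  simp only [kap_succ]
  split_ifs <;> simp

/-- the approximations are correct -/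
theorem orc_sound (hk : Approx k H) {b : Bool} {n : ℕ} {q : List Bool} (hq : q.length < n)
    (h : orc k ν b (state k ν n).1 q = true) : Hp k H ν q = b := by
  rw [orc, state_drop hq] at h
  exact hk.sound b _ _ h

/-- if everything is known, the approximation is correct on the short words -/
theorem orc_eq (hk : Approx k H) {n : ℕ} {r : List Bool} (hr : 2 ^ (r.length + 1) ≤ n)
    (hkn : known k ν r (state k ν n).1 = true) {q : List Bool} (hq : q.length ≤ r.length) :
    orc k ν true (state k ν n).1 q = Hp k H ν q := by
  have hrn : r.length < n := by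
    have := Nat.lt_two_pow_self (n := r.length + 1)
    omega
  have h2 : 2 ^ (q.length + 1) ≤ (un n).length := by
    rw [un_length]
    exact le_trans (Nat.pow_le_pow_right (by norm_num) (by omega)) hr
  have hmem : q ∈ strs (un n) := mem_strs_of_length h2
  rw [known, state_length, Bool.not_eq_true', List.any_eq_false] at hkn
  have h3 := hkn q hmem
  simp only [hq, decide_true, Bool.true_and, Bool.not_eq_true, Bool.not_eq_false',
    Bool.or_eq_true] at h3
  rcases h3 with h3 | h3
  · rw [h3, orc_sound hk (by omega) h3]
  · have h4 := orc_sound hk (by omega) h3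
    cases h5 : orc k ν true (state k ν n).1 q with
    | false => exact h4.symm
    | true => exact (orc_sound hk (by omega) h5).symm

theorem accB_iff (hk : Approx k H) {n : ℕ} {r : List Bool} (hr : 2 ^ (r.length + 1) ≤ n)
    (hkn : known k ν r (state k ν n).1 = true) (j x : List Bool) :
    accB k ν j r x (state k ν n).1 = true ↔ cAcc j r (Hp k H ν) x := by
  rw [← cAcc_congr (X := orc k ν true (state k ν n).1) (Y := Hp k H ν)
    (fun u hu => orc_eq hk hr hkn hu) j x, accB, state_length, List.any_eq_true, cAcc]
  constructor
  · rintro ⟨w, _, hw⟩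
    rw [Bool.and_eq_true, decide_eq_true_eq] at hw
    exact ⟨w, hw.1, hw.2⟩
  · rintro ⟨w, hw1, hw2⟩
    refine ⟨w, ?_, ?_⟩
    · refine mem_strs_of_length ?_
      rw [un_length]
      exact le_trans (Nat.pow_le_pow_right (by norm_num) (by omega)) hr
    · rw [Bool.and_eq_true, decide_eq_true_eq]
      exact ⟨hw1, hw2⟩

theorem req_sound (hk : Approx k H) {n : ℕ} (h : req k ν (state k ν n) = true) :
    ∃ x, Vio H (Hp k H ν) (enumU (kap k ν n)) x := by
  rw [req, List.any_eq_true] at h
  obtain ⟨x, hx, hv⟩ := h
  change viol k ν (enumU (kap k ν n)) x (state k ν n).1 = true at hv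
  set m := enumU (kap k ν n) with hm
  rw [viol, state_length, Bool.and_eq_true, Bool.and_eq_true, Bool.and_eq_true] at hv
  obtain ⟨⟨⟨hp, hf⟩, hkn⟩, hv⟩ := hv
  rw [rt_eq hp] at hf hkn hv
  rw [full_iff, un_length] at hf
  refine ⟨x, fun hV => ?_⟩
  rw [← accB_iff hk hf hkn, ← accB_iff hk hf hkn] at hV
  obtain ⟨h1, h2⟩ := hV
  rw [Bool.or_eq_true, Bool.and_eq_true, Bool.and_eq_true, Bool.or_eq_true, Bool.or_eq_true,
    Bool.not_eq_true', Bool.not_eq_true'] at hv
  rcases hv with ⟨h3, h4⟩ | ⟨h3, h4⟩
  · have h5 := hk.sound _ _ _ h3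
    rcases h4 with h4 | h4
    · rw [h1.1 h5] at h4
      exact Bool.noConfusion h4
    · exact (h2.2 h4) h5
  · have h5 := hk.sound _ _ _ h3
    rcases h4 with h4 | h4
    · rw [h1.2 h4] at h5
      exact Bool.noConfusion h5
    · have h6 := h2.1 (by rw [h5]; exact Bool.false_ne_true)
      rw [h6] at h4
      exact Bool.noConfusion h4

theorem req_compl (hk : Approx k H) {m x : List Bool} (h : Vio H (Hp k H ν) m x) :
    ∃ N : ℕ, ∀ n, N ≤ n → enumU (kap k ν n) = m → req k ν (state k ν n) = true := by
  set r := rb m x with hr
  obtain ⟨T₀, hT₀⟩ := exists_mem_strs x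
  obtain ⟨T₁, hT₁⟩ := hk.compl x
  choose T hT using fun q => hk.compl (gg k ν q)
  have hfin : {q : List Bool | q.length ≤ r.length}.Finite := List.finite_length_le Bool r.length
  obtain ⟨P, hP⟩ : ∃ P, P = 2 ^ (r.length + 1) := ⟨_, rfl⟩
  obtain ⟨E, hE⟩ : ∃ E, E = x.length ^ (cs (cs m)).length := ⟨_, rfl⟩
  refine ⟨T₀ + T₁ + (hfin.toFinset.sup T) + (E + (cs (cs m)).length) + P, fun n hn hm => ?_⟩
  have hrn : r.length < n := by
    have := Nat.lt_two_pow_self (n := r.length + 1)
    rw [← hP] at this
    omega
  have hp : padok (cs (cs m)) x (un n) = true := by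
    rw [padok, decide_eq_true_eq, List.length_append, pw_eq, un_length, un_length, ← hE]
    omega
  have hf : 2 ^ (r.length + 1) ≤ n := by rw [← hP]; omega
  have hkn : known k ν r (state k ν n).1 = true := by
    rw [known, state_length, Bool.not_eq_true', List.any_eq_false]
    intro q _
    by_cases hq : q.length ≤ r.length
    · simp only [hq, decide_true, Bool.true_and, Bool.not_eq_true, Bool.not_eq_false',
        Bool.or_eq_true]
      have h1 : T q ≤ n := by
        have h2 : T q ≤ hfin.toFinset.sup T :=
          Finset.le_sup (f := T) (hfin.mem_toFinset.2 hq)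
        omega
      have h3 : ∀ b, orc k ν b (state k ν n).1 q = k b (gg k ν q, un n) := by
        intro b
        rw [orc, state_drop (by omega), state_length, gg]
      rw [h3, h3]
      have h4 := hT q (un n) (by rw [un_length]; exact h1)
      cases h5 : H (gg k ν q) with
      | true => rw [h5] at h4; exact Or.inl h4
      | false => rw [h5] at h4; exact Or.inr h4
    · simp [hq]
  rw [req, List.any_eq_true]
  refine ⟨x, ?_, ?_⟩
  · rw [state_length]
    exact hT₀ _ (by rw [un_length]; omega)
  change viol k ν (enumU (kap k ν n)) x (state k ν n).1 = true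
  rw [hm, viol, state_length, rt_eq hp, ← hr, hp, hkn, (full_iff _ _).2 (by rw [un_length]; exact hf)]
  have hx := hT₁ (un n) (by rw [un_length]; omega)
  rw [Vio, ← hr, ← accB_iff hk hf hkn, ← accB_iff hk hf hkn] at h
  cases hH : H x with
  | true =>
    rw [hH] at hx h
    simp only [hx, Bool.true_and, Bool.or_eq_true, Bool.not_eq_true']
    left
    by_contra hc
    apply h
    push Not at hc
    obtain ⟨h1, h2⟩ := hc
    have h1' : accB k ν (cf m) r x (state k ν n).1 = true := by
      cases h3 : accB k ν (cf m) r x (state k ν n).1 with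
      | true => rfl
      | false => exact absurd h3 h1
    refine ⟨⟨fun _ => h1', fun _ => rfl⟩, fun h3 => absurd rfl h3, fun h3 => absurd h3 h2⟩
  | false =>
    rw [hH] at hx h
    simp only [hx, Bool.true_and, Bool.or_eq_true, Bool.not_eq_true']
    right
    by_contra hc
    apply h
    push Not at hc
    obtain ⟨h1, h2⟩ := hc
    have h2' : accB k ν (cf (cs m)) r x (state k ν n).1 = true := by
      cases h3 : accB k ν (cf (cs m)) r x (state k ν n).1 with
      | true => rfl
      | false => exact absurd h3 h2
    refine ⟨⟨fun h3 => Bool.noConfusion h3, fun h3 => absurd h3 h1⟩,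
      fun _ => h2', fun _ => Bool.false_ne_true⟩

/-- if the index bounds are unbounded, all requirements are satisfied -/
theorem all_vio (hk : Approx k H) (hu : ∀ K : ℕ, ∃ n, K ≤ (kap k ν n).length) (m : List Bool) :
    ∃ x, Vio H (Hp k H ν) m x := by
  obtain ⟨K, rfl⟩ := enum_surj m
  classical
  have hex := hu (K + 1)
  have h1 := Nat.find_spec hex
  have h2 := fun n (hn : n < Nat.find hex) => Nat.find_min hex hn
  generalize Nat.find hex = n' at h1 h2
  cases n' with
  | zero =>
    exfalso
    have : (kap k ν 0).length = 0 := rfl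
    omega
  | succ n =>
    have h3 := h2 n (Nat.lt_succ_self n)
    rw [kap_succ] at h1
    by_cases h4 : req k ν (state k ν n) = true
    · rw [if_pos h4, List.length_cons] at h1
      have h5 : (kap k ν n).length = K := by omega
      have h6 := req_sound hk h4
      rwa [enumU_eq, h5] at h6
    · rw [if_neg h4] at h1
      exact absurd h1 h3

/-- if the index bounds are bounded, a requirement is never violated -/
theorem bounded_case (hk : Approx k H) {K S : ℕ} (hK : ∀ n, S ≤ n → (kap k ν n).length = K) :
    ∀ x, ¬ Vio H (Hp k H ν) (enum K) x := by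
  intro x hx
  obtain ⟨N, hN⟩ := req_compl hk hx
  have h1 := hN (max S N) (le_max_right _ _)
    (by rw [enumU_eq, hK _ (le_max_left _ _)])
  have h2 := hK (max S N + 1) (le_trans (le_max_left _ _) (Nat.le_succ _))
  rw [kap_succ, if_pos h1, List.length_cons, hK _ (le_max_left _ _)] at h2
  omega

end Pool.Agent.Hrd
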