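import Mathlib
import Pool.Agent.Hrd.Look

set_option autoImplicit false

/-!
# If the index bounds are bounded, the language is in NP ∩ coNP
-/

namespace Pool.Agent.Hrd

open Turing Function N68a2faeb N793a5b8e N487b59b3 Pool.Agent.Helper22
open Pool.Agent.Helper20.Cons (cAcc cRun cAns cOut cNum)

variable {k : Bool → List Bool × List Bool → Bool} {H : DecisionProblem} {ν : List Bool}

/-- finite variants of languages in NP -/
theorem NP_finite_variant {L L' : DecisionProblem} (hL : L ∈ NP) {N : ℕ}
    (h : ∀ z : List Bool, N ≤ z.length → L' z = L z) : L' ∈ NP := by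
  obtain ⟨p, R, hR, hLR⟩ := hL
  have hfin : {x : List Bool | x.length ≤ N ∧ L' x = true}.Finite :=
    (List.finite_length_le Bool N).subset fun x hx => hx.1
  set S : List (List Bool) := hfin.toFinset.toList with hS
  have hmem : ∀ x : List Bool, x.length ≤ N → (wmem S x = true ↔ L' x = true) := fun x hx => by
    rw [wmem_iff, hS, Finset.mem_toList, Set.Finite.mem_toFinset, Set.mem_ofPred_eq]
    exact ⟨fun h' => h'.2, fun h' => ⟨hx, h'⟩⟩
  have hR' := (isPolyTime_iff _).1 hR
  refine ⟨p, fun a => if decide ((un N).length ≤ a.1.length) then R a else wmem S a.1,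
    (isPolyTime_iff _).2 (FP.ite (by fun_prop) hR' (by fun_prop)), fun x => ?_⟩
  by_cases hx : N ≤ x.length
  · have h1 : decide ((un N).length ≤ x.length) = true := by
      rw [decide_eq_true_eq, un_length]; exact hx
    rw [h x hx, hLR]
    simp only [h1, if_true]
  · have h1 : decide ((un N).length ≤ x.length) = false := by
      rw [decide_eq_false_iff_not, un_length]; exact hx
    simp only [h1, Bool.false_eq_true, if_false]
    rw [hmem x (by omega)]
    exact ⟨fun h' => ⟨[], by simp, h'⟩, fun ⟨_, _, h'⟩ => h'⟩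

open Classical in
/-- the language presented by a valid code -/
theorem valid_mem {v : List Bool} (hv : Valid v) :
    (fun x => decide (Ac true v x) : DecisionProblem) ∈ NP ∩ coNP := by
  have key : ∀ b, ∃ (p : Polynomial ℕ) (R : List Bool × List Bool → Bool), IsPolyTime R ∧
      ∀ x, Ac b v x ↔ ∃ w : List Bool, w.length ≤ p.eval x.length ∧ R (x, w) = true := by
    intro b
    let P : Polynomial ℕ := Polynomial.X ^ (cs (cs v)).length + Polynomial.C (cs (cs v)).length
    have hP : ∀ n, P.eval n = n ^ (cs (cs v)).length + (cs (cs v)).length := fun n => by simp [P]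
    refine ⟨P, fun a => chk (jb b v) a.1 a.2 (un (P.eval a.1.length)), (isPolyTime_iff _).2 ?_,
      fun x => ?_⟩
    · have h1 : FP fun a : List Bool × List Bool => un (P.eval a.1.length) :=
        FP.un_poly FP.fst P
      fun_prop
    · simp only [Ac, rb, ← hP]
      constructor
      · rintro ⟨w, hw⟩
        have h1 := ((chk_iff _ _ _ _).1 hw).1
        rw [un_length] at h1
        exact ⟨w, h1, hw⟩
      · rintro ⟨w, _, hw⟩
        exact ⟨w, hw⟩
  constructor
  · obtain ⟨p, R, hR, h⟩ := key true
    refine ⟨p, R, hR, fun x => ?_⟩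
    rw [decide_eq_true_eq]
    exact h x
  · obtain ⟨p, R, hR, h⟩ := key false
    refine ⟨p, R, hR, fun x => ?_⟩
    rw [compl_true, decide_eq_true_eq, hv x, not_not]
    exact h x

/-- for a valid code, the selection converges, if `H` is hard -/
theorem sel_valid (hk : Approx k H) (hH : Hard H) {v : List Bool} (hv : Valid v) :
    ∃ (j : List Bool) (T : ℕ), (∀ x, Ac true v x ↔ H (fj j x) = true) ∧
      ∀ t : List Bool, T ≤ t.length → sel k v t = j := by
  classical
  refine sel_conv hk hv ?_
  obtain ⟨f, hf, hf'⟩ := hH _ (valid_mem hv)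
  obtain ⟨j, hj⟩ := exists_fj ((isPolyTime_iff _).1 hf)
  refine ⟨j, fun x => ?_⟩
  rw [hj, ← hf' x, decide_eq_true_eq]

theorem act_iff (z c : List Bool) : act k z c = true ↔
    ((cf z).length ≤ c.length ∧ padok (cs (cs (iv z))) (cf (cs z)) (cs (cs z)) = true) ∧
    (bad (iv z) z = false ∧
      (cf (cs z)).length ^ (cs (ij k z)).length ≤ (cs (cs z)).length) := by
  simp only [act, Bool.and_eq_true, decide_eq_true_eq, Bool.not_eq_true', pw_eq, un_length]
  have : ∀ a b : ℕ, min a (b + 1) ≤ b ↔ a ≤ b := by intro a b; omega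
  rw [this]

theorem low (hk : Approx k H) (hν : H ν = false) (hH : Hard H) {K S : ℕ}
    (hK : ∀ n, S ≤ n → (kap k ν n).length = K) : Hp k H ν ∈ NP ∩ coNP := by
  classical
  have hv : ∀ i, Valid (enum i) → ∃ (j : List Bool) (T : ℕ),
      (∀ x, Ac true (enum i) x ↔ H (fj j x) = true) ∧
      ∀ t : List Bool, T ≤ t.length → sel k (enum i) t = j := fun i hi => sel_valid hk hH hi
  choose! j T h1 h2 using hv
  have hb : ∀ i, ¬ Valid (enum i) → ∃ T : ℕ, ∀ t : List Bool, T ≤ t.length →
      bad (enum i) t = true := fun i hi => bad_true hi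
  choose! T' h3 using hb
  set N : ℕ := S + (Finset.range (K + 1)).sup T + (Finset.range (K + 1)).sup T' with hN
  have hT : ∀ i ≤ K, T i ≤ (Finset.range (K + 1)).sup T := fun i hi =>
    Finset.le_sup (f := T) (Finset.mem_range.2 (by omega))
  have hT' : ∀ i ≤ K, T' i ≤ (Finset.range (K + 1)).sup T' := fun i hi =>
    Finset.le_sup (f := T') (Finset.mem_range.2 (by omega))
  let l : List (List Bool × List Bool) :=
    ((List.range (K + 1)).filter fun i => decide (Valid (enum i))).map fun i => (un i, cs (j i))
  let C : List Bool → Bool := fun z =>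
    (l.any fun p => leneq (cf z) p.1 &&
      decide ((pw (cf (cs z)) p.2 (cs (cs z))).length ≤ (cs (cs z)).length)) &&
      padok (cs (cs (iv z))) (cf (cs z)) (cs (cs z))
  have hCiff : ∀ z, C z = true ↔ ((cf z).length ≤ K ∧ Valid (iv z) ∧
      (cf (cs z)).length ^ (cs (j (cf z).length)).length ≤ (cs (cs z)).length) ∧
      padok (cs (cs (iv z))) (cf (cs z)) (cs (cs z)) = true := by
    intro z
    have e1 : iv z = enum (cf z).length := enumU_eq _
    simp only [C, Bool.and_eq_true, List.any_eq_true, l, List.mem_map, List.mem_filter,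
      List.mem_range, decide_eq_true_eq, leneq_iff, pw_eq, un_length]
    refine and_congr_left fun _ => ?_
    constructor
    · rintro ⟨p, ⟨i, ⟨hi, hi'⟩, rfl⟩, h4, h5⟩
      simp only [un_length] at h4 h5
      subst h4
      rw [e1]
      exact ⟨by omega, hi', by omega⟩
    · rintro ⟨h4, h5, h6⟩
      refine ⟨_, ⟨(cf z).length, ⟨by omega, by rwa [e1] at h5⟩, rfl⟩, ?_, ?_⟩
      · simp only [un_length]
      · simp only
        omega
  have hCFP : FP C := by
    have e1 : FP fun p : List Bool × (List Bool × List Bool) => leneq (cf p.1) p.2.1 &&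
        decide ((pw (cf (cs p.1)) p.2.2 (cs (cs p.1))).length ≤ (cs (cs p.1)).length) := by
      fun_prop
    have e2 := FP.any_ctx (γ := List Bool) (β := List Bool × List Bool) e1
    have e3 : FP fun z : List Bool => l.any fun p => leneq (cf z) p.1 &&
        decide ((pw (cf (cs z)) p.2 (cs (cs z))).length ≤ (cs (cs z)).length) :=
      e2.comp (FP.id.pair (FP.const l))
    have e4 : FP fun z : List Bool => padok (cs (cs (iv z))) (cf (cs z)) (cs (cs z)) := by
      unfold iv; fun_prop
    exact e3.and e4
  -- the value of the language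
  have hval : ∀ z : List Bool, N ≤ z.length → (Hp k H ν z = true ↔
      C z = true ∧ Ac true (iv z) (cf (cs z))) := by
    intro z hz
    have e1 : iv z = enum (cf z).length := enumU_eq _
    have e2 : (kap k ν z.length).length = K := hK _ (by omega)
    have e3 : act k z (kap k ν z.length) = true ↔ C z = true := by
      rw [act_iff, hCiff, e2]
      constructor
      · rintro ⟨⟨g1, g2⟩, g3, g4⟩
        have g5 : Valid (iv z) := by
          by_contra hc
          rw [e1] at hc
          have := h3 _ hc z (by have := hT' _ g1; omega)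
          rw [← e1, g3] at this
          exact Bool.false_ne_true this
        have g6 : ij k z = j (cf z).length := by
          rw [ij, e1]
          rw [e1] at g5
          exact h2 _ g5 z (by have := hT _ g1; omega)
        rw [g6] at g4
        exact ⟨⟨g1, g5, g4⟩, g2⟩
      · rintro ⟨⟨g1, g5, g4⟩, g2⟩
        have g6 : ij k z = j (cf z).length := by
          rw [ij, e1]
          rw [e1] at g5
          exact h2 _ g5 z (by have := hT _ g1; omega)
        refine ⟨⟨g1, g2⟩, bad_false g5 z, ?_⟩
        rw [g6]
        exact g4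
    by_cases hC : C z = true
    · have e4 := e3.2 hC
      obtain ⟨⟨g1, g5, g4⟩, g2⟩ := (hCiff z).1 hC
      have g6 : ij k z = j (cf z).length := by
        rw [ij, e1]
        rw [e1] at g5
        exact h2 _ g5 z (by have := hT _ g1; omega)
      have e5 : gg k ν z = fj (j (cf z).length) (cf (cs z)) := by
        rw [gg, G, if_pos e4, g6, fjt_eq _ _ _ g4]
      rw [Hp, e5, ← h1 _ (by rwa [e1] at g5), ← e1]
      exact ⟨fun h => ⟨hC, h⟩, fun h => h.2⟩
    · have e4 : ¬ act k z (kap k ν z.length) = true := fun h => hC (e3.1 h)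
      have e5 : gg k ν z = ν := by
        rw [gg, G, if_neg e4]
      rw [Hp, e5, hν]
      simp [hC]
  -- the verifiers
  have hrt : FP fun a : List Bool × List Bool =>
      pw (cf (cs a.1)) (cs (cs (iv a.1))) (cs (cs a.1)) ++ un (cs (cs (iv a.1))).length := by
    unfold iv; fun_prop
  have hchk : ∀ b, FP fun a : List Bool × List Bool => chk (jb b (iv a.1)) (cf (cs a.1)) a.2
      (rt (iv a.1) (cf (cs a.1)) (cs (cs a.1))) := by
    intro b
    have e1 : FP fun a : List Bool × List Bool => jb b (iv a.1) := by
      unfold jb iv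
      cases b
      · simp only [Bool.false_eq_true, if_false]; fun_prop
      · simp only [if_true]; fun_prop
    unfold rt
    fun_prop
  have hacc : ∀ b z, C z = true → (Ac b (iv z) (cf (cs z)) ↔ ∃ w : List Bool,
      w.length ≤ Polynomial.X.eval z.length ∧ chk (jb b (iv z)) (cf (cs z)) w
        (rt (iv z) (cf (cs z)) (cs (cs z))) = true) := by
    intro b z hC
    have e1 := ((hCiff z).1 hC).2
    have e2 := (padok_iff _ _ _).1 e1
    rw [rt_eq e1, Ac]
    constructor
    · rintro ⟨w, hw⟩
      refine ⟨w, ?_, hw⟩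
      have e3 := ((chk_iff _ _ _ _).1 hw).1
      rw [rb, un_length] at e3
      have e4 : (cs (cs z)).length ≤ z.length := (cs_length _).trans (cs_length _)
      rw [Polynomial.eval_X]
      omega
    · rintro ⟨w, -, hw⟩
      exact ⟨w, hw⟩
  have hmem : (fun z => decide (C z = true ∧ Ac true (iv z) (cf (cs z))) : DecisionProblem) ∈
      NP ∩ coNP := by
    constructor
    · refine ⟨Polynomial.X, fun a => C a.1 && chk (jb true (iv a.1)) (cf (cs a.1)) a.2
        (rt (iv a.1) (cf (cs a.1)) (cs (cs a.1))), (isPolyTime_iff _).2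
        ((hCFP.comp FP.fst).and (hchk true)), fun z => ?_⟩
      simp only [decide_eq_true_eq, Bool.and_eq_true]
      constructor
      · rintro ⟨hC, h⟩
        obtain ⟨w, hw, hw'⟩ := (hacc true z hC).1 h
        exact ⟨w, hw, hC, hw'⟩
      · rintro ⟨w, hw, hC, hw'⟩
        exact ⟨hC, (hacc true z hC).2 ⟨w, hw, hw'⟩⟩
    · refine ⟨Polynomial.X, fun a => !C a.1 || chk (jb false (iv a.1)) (cf (cs a.1)) a.2
        (rt (iv a.1) (cf (cs a.1)) (cs (cs a.1))), (isPolyTime_iff _).2
        ((hCFP.comp FP.fst).not.or (hchk false)), fun z => ?_⟩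
      rw [compl_true]
      simp only [decide_eq_true_eq, Bool.or_eq_true, Bool.not_eq_true']
      by_cases hC : C z = true
      · have hval := ((hCiff z).1 hC).1.2.1
        rw [and_iff_right hC, hval, not_not, hacc false z hC]
        simp [hC]
      · rw [Bool.not_eq_true] at hC
        simp only [hC, Bool.false_eq_true, false_and, not_false_eq_true, true_or, and_true,
          true_iff]
        exact ⟨[], by simp⟩
  constructor
  · refine NP_finite_variant hmem.1 (N := N) fun z hz => ?_
    rw [Bool.eq_iff_iff, hval z hz, decide_eq_true_eq]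
  · refine NP_finite_variant (L := (fun z => decide (C z = true ∧
      Ac true (iv z) (cf (cs z))) : DecisionProblem)ᶜ) hmem.2 (N := N) fun z hz => ?_
    rw [Bool.eq_iff_iff, compl_true, compl_true, hval z hz, decide_eq_true_eq]

end Pool.Agent.Hrd
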