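import Mathlib
import Pool.Agent.Hrd.Low
import Pool.Agent.Hrd.Close
import Pool.Agent.Hrd.LookFP
import Pool.Agent.Helper20.Cons.G

set_option autoImplicit false

/-!
# Below every decidable hard language outside NP ∩ coNP there is an easier one
-/

namespace Pool.Agent.Hrd

open Turing Function N68a2faeb N793a5b8e N487b59b3 Pool.Agent.Helper22
open Pool.Agent.Helper20.Cons (cAcc cRun cAns cOut cNum exists_code)
open Pool.Agent.Helper49.Cons (pre pre_run)

theorem Dec.of_reducible {H H' : DecisionProblem} (h : ManyOneReducible H' H) (hD : Dec H) :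
    Dec H' := by
  obtain ⟨f, hf, hf'⟩ := h
  have hf1 := (isPolyTime_iff _).1 hf
  obtain ⟨⟨R, hR, hR'⟩, ⟨Q, hQ, hQ'⟩⟩ := hD
  have hR1 := (isPolyTime_iff _).1 hR
  have hQ1 := (isPolyTime_iff _).1 hQ
  refine ⟨⟨fun a => R (f a.1, a.2), (isPolyTime_iff _).2
    (hR1.comp ((hf1.comp FP.fst).pair FP.snd)), fun x => ?_⟩,
    ⟨fun a => Q (f a.1, a.2), (isPolyTime_iff _).2
    (hQ1.comp ((hf1.comp FP.fst).pair FP.snd)), fun x => ?_⟩⟩
  · rw [hf' x, hR']
  · rw [compl_true, hf' x, ← compl_true, hQ']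

theorem dec_of_mem {L : DecisionProblem} (hL : L ∈ NP ∩ coNP) : Dec L := by
  have key : ∀ {A : DecisionProblem}, A ∈ NP → CE A := by
    rintro A ⟨p, R, hR, h⟩
    refine ⟨wL R p, (isPolyTime_iff _).2 (wL_FP ((isPolyTime_iff _).1 hR) p), fun x => ?_⟩
    rw [h]
    simp only [wL_iff]
  exact ⟨key hL.1, key hL.2⟩

theorem const_mem (b : Bool) : (fun _ => b : DecisionProblem) ∈ NP ∩ coNP := by
  constructor
  · refine ⟨0, fun _ => b, (isPolyTime_iff _).2 (FP.const b), fun x => ?_⟩
    exact ⟨fun h => ⟨[], by simp, h⟩, fun ⟨_, _, h⟩ => h⟩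
  · refine ⟨0, fun _ => !b, (isPolyTime_iff _).2 (FP.const _), fun x => ?_⟩
    rw [compl_true]
    cases b
    · exact ⟨fun _ => ⟨[], by simp, rfl⟩, fun _ => Bool.false_ne_true⟩
    · exact ⟨fun h => absurd rfl h, fun ⟨_, _, h⟩ => absurd h Bool.false_ne_true⟩

/-- a coded verifier with oracle `X` gives a language of NP relative to `X` -/
theorem mem_NPo_of_code {X : Oracle} {L : DecisionProblem} {j : List Bool} {e : ℕ}
    (h : ∀ x : List Bool, L x = true ↔ cAcc j (un (x.length ^ e + e)) X x) : L ∈ NPo X := by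
  let P : Polynomial ℕ := Polynomial.X ^ e + Polynomial.C e
  have hP : ∀ n, P.eval n = n ^ e + e := fun n => by simp [P]
  have h1 : FP fun a : List Bool × List Bool =>
      (cd j (cd a.1 (un (P.eval a.1.length))), a.2) := by
    have h2 : FP fun a : List Bool × List Bool => un (P.eval a.1.length) :=
      FP.un_poly FP.fst P
    fun_prop
  refine ⟨P, pre Pool.Agent.Helper20.Cons.UnivNP.M _ h1, fun x => ?_⟩
  rw [h]
  simp only [Accepts, pre_run, Pool.Agent.Helper20.Cons.UnivNP.run_iff, cf_cd, cs_cd, un_length,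
    hP, cAcc]
  constructor
  · rintro ⟨w, hw, hw'⟩
    exact ⟨w, hw, hw, hw'⟩
  · rintro ⟨w, -, hw, hw'⟩
    exact ⟨w, hw, hw'⟩

theorem bounded_const {f : ℕ → ℕ} (hf : Monotone f) {B : ℕ} (hB : ∀ n, f n ≤ B) :
    ∃ K S, ∀ n, S ≤ n → f n = K := by
  classical
  have h1 : ∃ K, ∀ n, f n ≤ K := ⟨B, hB⟩
  set K := Nat.find h1 with hK
  have h2 : ∀ n, f n ≤ K := Nat.find_spec h1
  by_cases h3 : ∃ S, f S = K
  · obtain ⟨S, hS⟩ := h3
    refine ⟨K, S, fun n hn => ?_⟩
    have h4 : f S ≤ f n := hf hn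
    have h5 := h2 n
    omega
  · exfalso
    push Not at h3
    have h4 : K ≠ 0 := by
      intro h5
      have := h2 0
      exact h3 0 (by omega)
    refine Nat.find_min h1 (m := K - 1) (by omega) fun n => ?_
    have h5 := h2 n
    have h6 := h3 n
    omega

theorem exists_easier {H : DecisionProblem} (hD : Dec H) (hH : Hard H) (hn : H ∉ NP ∩ coNP) :
    ∃ H' : DecisionProblem, Dec H' ∧ Hard H' ∧ ManyOneReducible H' H ∧
      H ∉ NPo H' ∩ coNPo H' := by
  classical
  obtain ⟨k, hk⟩ := exists_approx hD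
  obtain ⟨ν, hν⟩ : ∃ ν, H ν = false := by
    by_contra hc
    push Not at hc
    have h1 : H = fun _ => true := funext fun x => by
      have := hc x
      simpa using this
    exact hn (h1 ▸ const_mem true)
  have hred : ManyOneReducible (Hp k H ν) H :=
    ⟨gg k ν, (isPolyTime_iff _).2 (gg_FP hk.fp), fun _ => rfl⟩
  -- the index bounds are unbounded
  have hu : ∀ K : ℕ, ∃ n, K ≤ (kap k ν n).length := by
    by_contra hc
    push Not at hc
    obtain ⟨B, hB⟩ := hc
    obtain ⟨K, S, hK⟩ := bounded_const (kap_mono (k := k) (ν := ν)) fun n => (hB n).le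
    have h1 := low hk hν hH hK
    have h2 := bounded_case hk hK
    have h3 : ∀ x, (H x = true ↔ cAcc (cf (enum K)) (rb (enum K) x) (Hp k H ν) x) ∧
        (¬ H x = true ↔ cAcc (cf (cs (enum K))) (rb (enum K) x) (Hp k H ν) x) := fun x =>
      not_not.1 (h2 x)
    apply hn
    constructor
    · exact NPo_low h1 (mem_NPo_of_code fun x => (h3 x).1)
    · exact NPo_low h1 (mem_NPo_of_code fun x => (compl_true _ _).trans (h3 x).2)
  refine ⟨Hp k H ν, hD.of_reducible hred, fun L hL => ?_, hred, ?_⟩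
  · obtain ⟨v, hv, hLv⟩ := exists_valid hL
    obtain ⟨i, rfl⟩ := enum_surj v
    obtain ⟨j, T, hj, hT⟩ := sel_valid hk hH hv
    obtain ⟨S, hS⟩ := hu i
    set e := (cs (cs (enum i))).length with he
    set d := (cs j).length with hd
    let P : Polynomial ℕ := Polynomial.X ^ e + Polynomial.X ^ d + Polynomial.C (e + T + S)
    have hP : ∀ n, P.eval n = n ^ e + n ^ d + (e + T + S) := fun n => by simp [P]
    let f : List Bool → List Bool := fun x => cd (un i) (cd x (un (P.eval x.length)))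
    have hf : FP f := by
      have h1 : FP fun x : List Bool => un (P.eval x.length) := FP.un_poly FP.id P
      show FP fun x : List Bool => cd (un i) (cd x (un (P.eval x.length)))
      fun_prop
    refine ⟨f, (isPolyTime_iff _).2 hf, fun x => ?_⟩
    have e1 : cf (f x) = un i := cf_cd _ _
    have e2 : cs (f x) = cd x (un (P.eval x.length)) := cs_cd _ _
    have e3 : iv (f x) = enum i := by rw [iv, enumU_eq, e1, un_length]
    have e4 : (f x).length = 2 * i + 1 + (2 * x.length + 1 + P.eval x.length) := by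
      show (cd (un i) (cd x (un (P.eval x.length)))).length = _
      rw [cd_length, cd_length, un_length, un_length]
    have hPx := hP x.length
    have e5 : ij k (f x) = j := by
      rw [ij, e3]
      exact hT _ (by rw [e4, hPx]; omega)
    have e6 : i ≤ (kap k ν (f x).length).length := by
      refine hS.trans (kap_mono (k := k) (ν := ν) ?_)
      rw [e4, hPx]; omega
    have e7 : act k (f x) (kap k ν (f x).length) = true := by
      rw [act_iff, e1, e2, e3, e5, cf_cd, cs_cd, un_length, un_length]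
      refine ⟨⟨e6, ?_⟩, bad_false hv _, ?_⟩
      · rw [padok_iff, un_length, hPx, ← he]; omega
      · rw [hPx, ← hd]; omega
    have e8 : gg k ν (f x) = fj j x := by
      rw [gg, G, if_pos e7, e5, e2, cf_cd, cs_cd, fjt_eq]
      rw [un_length, hPx, ← hd]; omega
    rw [Bool.eq_iff_iff, hLv, Hp, e8, hj]
  · rintro ⟨⟨p₁, M₁, h₁⟩, ⟨p₀, M₀, h₀⟩⟩
    obtain ⟨j₁, e₁, hj₁⟩ := exists_code M₁ p₁
    obtain ⟨j₀, e₀, hj₀⟩ := exists_code M₀ p₀
    obtain ⟨x, hx⟩ := all_vio hk hu (cd j₁ (cd j₀ (un (e₁ + e₀))))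
    apply hx
    simp only [rb, cf_cd, cs_cd, un_length]
    rw [hj₁ _ (by omega), hj₀ _ (by omega), ← h₁, ← h₀, compl_true]
    exact ⟨Iff.rfl, Iff.rfl⟩

/-! ## Consequences -/

theorem turing_of_manyOne {A B : DecisionProblem} (h : ManyOneReducible A B) :
    TuringReducible A B := by
  obtain ⟨f, hf, h⟩ := h
  let M : OracleProc (List Bool) Bool :=
    { clock := fun _ => [true]
      query := fun s => f s.1
      out := fun s => s.2.headD false
      clock_poly := (isPolyTime_iff _).2 (FP.const _)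
      query_poly := (isPolyTime_iff _).2 (((isPolyTime_iff _).1 hf).comp FP.fst)
      out_poly := (isPolyTime_iff _).2 (FP.headD FP.snd _) }
  exact ⟨M, fun x => h x⟩

theorem TuringReducible.mem {A B : DecisionProblem} (h : TuringReducible A B) :
    A ∈ NPo B ∩ coNPo B := by
  obtain ⟨M, hM⟩ := h
  constructor
  · refine ⟨0, pre M (fun a : List Bool × List Bool => a.1) FP.fst, fun x => ?_⟩
    simp only [Accepts, pre_run, ← hM]
    exact ⟨fun h => ⟨[], by simp, h⟩, fun ⟨_, _, h⟩ => h⟩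
  · obtain ⟨K, hK⟩ := Pool.Agent.Helper21.Off.exists_neg M
    refine ⟨0, pre K (fun a : List Bool × List Bool => a.1) FP.fst, fun x => ?_⟩
    simp only [Accepts, pre_run, hK, ← hM, compl_true, Bool.not_eq_true']
    rw [Bool.not_eq_true]
    exact ⟨fun h => ⟨[], by simp, h⟩, fun ⟨_, _, h⟩ => h⟩

/-- NP has a complete language. -/
theorem exists_NP_complete : ∃ C, IsCompleteFor NP C := by
  obtain ⟨C, hC, hc⟩ := Pool.Agent.Helper20.Cons.exists_complete_NPo fun _ => false
  exact ⟨C, NPo_low (const_mem false) hC, fun L hL => hc L (NP_subset _ hL)⟩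

theorem NP_of_reducible {A B : DecisionProblem} (h : ManyOneReducible A B) (hB : B ∈ NP) :
    A ∈ NP := by
  obtain ⟨f, hf, h⟩ := h
  obtain ⟨p, R, hR, hR'⟩ := hB
  have hf1 := (isPolyTime_iff _).1 hf
  have hR1 := (isPolyTime_iff _).1 hR
  obtain ⟨B0, hB0, hB0m, hB0le⟩ := hf1.bound
  have hPB : PB fun n => p.eval (B0 (3 * n)) := by
    have h1 : PB fun n => B0 (3 * n) := by fun_prop
    exact (PB.poly p).comp h1
  obtain ⟨q, hq⟩ := exists_poly hPB
  refine ⟨q, fun a => wL R p (f a.1, a.2), (isPolyTime_iff _).2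
    ((wL_FP hR1 p).comp ((hf1.comp FP.fst).pair FP.snd)), fun x => ?_⟩
  rw [h x, hR']
  simp only [wL_iff]
  constructor
  · rintro ⟨w, hw, hw'⟩
    refine ⟨w, hw.trans ((poly_mono p ?_).trans (hq x.length)), hw, hw'⟩
    have h1 := hB0le x
    rw [sz_bits, sz_bits] at h1
    have h2 := hB0m (show 3 * x.length ≤ 3 * x.length from le_rfl)
    omega
  · rintro ⟨w, _, hw⟩
    exact ⟨w, hw⟩

/-- NP and coNP agree iff some (hence every) NP-complete language is in coNP. -/
theorem eq_of_complete_mem {C : DecisionProblem} (hC : IsCompleteFor NP C) (h : C ∈ coNP) :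
    NP = coNP := by
  refine np_eq_coNP_of_subset fun L hL => ?_
  obtain ⟨f, hf, hf'⟩ := hC.2 L hL
  refine NP_of_reducible (A := Lᶜ) (B := Cᶜ) ⟨f, hf, fun x => ?_⟩ h
  rw [Bool.eq_iff_iff, compl_true, compl_true, hf' x]

/-- languages of NP are decidable -/
theorem dec_of_NP {L : DecisionProblem} (hL : L ∈ NP) : Dec L := by
  obtain ⟨p, R, hR, hLR⟩ := hL
  have hR1 := (isPolyTime_iff _).1 hR
  refine ⟨⟨wL R p, (isPolyTime_iff _).2 (wL_FP hR1 p), fun x => ?_⟩,
    ⟨fun a => full (un (p.eval a.1.length)) a.2 && !(strs a.2).any fun w => wL R p (a.1, w),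
      (isPolyTime_iff _).2 ?_, fun x => ?_⟩⟩
  · rw [hLR]
    simp only [wL_iff]
  · have h1 : FP fun a : List Bool × List Bool => full (un (p.eval a.1.length)) a.2 :=
      full_FP.comp ((FP.un_poly FP.fst p).pair FP.snd)
    have h2 := FP.any_ctx (γ := List Bool) (β := List Bool) (P := wL R p) (wL_FP hR1 p)
    have h3 : FP fun a : List Bool × List Bool => (strs a.2).any fun w => wL R p (a.1, w) :=
      h2.comp (FP.fst.pair (FP.strs FP.snd))
    exact h1.and h3.not
  · rw [compl_true, hLR]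
    simp only [Bool.and_eq_true, full_iff, un_length, Bool.not_eq_true', List.any_eq_false,
      wL_iff]
    constructor
    · intro h
      refine ⟨un (2 ^ (p.eval x.length + 1)), by rw [un_length], ?_⟩
      rintro w _ ⟨hw, hw'⟩
      exact h ⟨w, hw, hw'⟩
    · rintro ⟨t, ht, h⟩ ⟨w, hw, hw'⟩
      refine h w (mem_strs_of_length (le_trans ?_ ht)) ⟨hw, hw'⟩
      exact Nat.pow_le_pow_right (by omega) (by omega)

end Pool.Agent.Hrd
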